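import Mathlib

open Finset

namespace Pool.Agent.Results.MP_9bde79_co.CosetNearHalf

/-- The vector space `F_2^n`. -/
abbrev F2n (n : ℕ) : Type := Fin n → ZMod 2

/-- `A ⊆ F_2^n` has density at least `α`. -/
def DensityGE (α : ℝ) {n : ℕ} (A : Finset (F2n n)) : Prop :=
  α * 2 ^ n ≤ (A.card : ℝ)

/-- The sumset `A + A` contains a coset of dimension `d`. -/
def ContainsCoset {n : ℕ} (A : Finset (F2n n)) (d : ℕ) : Prop :=
  ∃ (x : F2n n) (V : Submodule (ZMod 2) (F2n n)), Module.finrank (ZMod 2) V = d ∧
    ∀ v ∈ V, ∃ a ∈ A, ∃ b ∈ A, a + b = x + v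

/-- `d(α, n)`: the largest `d` such that for every `A ⊆ F_2^n` of density at least `α` the sumset
`A + A` contains a coset of dimension `d`. -/
noncomputable def dimCoset (α : ℝ) (n : ℕ) : ℕ :=
  sSup {d : ℕ | ∀ A : Finset (F2n n), DensityGE α A → ContainsCoset A d}

/-- `m(α, n) = n - d(α, n)`. -/
noncomputable def codimCoset (α : ℝ) (n : ℕ) : ℤ := (n : ℤ) - (dimCoset α n : ℤ)

/-! ### The greedy argument -/

lemma greedy {T X : Type*} [Fintype X] [DecidableEq X] (R : T → X → Prop)
    [∀ t, DecidablePred (R t)] [∀ x, DecidablePred fun t => R t x] (π : X → ℝ)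
    (hπ : ∀ x, 0 ≤ π x) (p v : ℝ) (hp : 0 < p) (hv : 0 ≤ v) (hsum : p ≤ ∑ x, π x)
    (Z : Finset T) (hZ : ∀ t ∈ Z, ∑ x with R t x, π x ≤ v) (m : ℕ) :
    ∃ s : Finset X, s.card ≤ m ∧
      ((Z.filter fun t => ∀ x ∈ s, R t x).card : ℝ) ≤ (v / p) ^ m * Z.card := by
  classical
  induction m with
  | zero => exact ⟨∅, by simp, by simp⟩
  | succ m ih =>
    obtain ⟨s, hs, hc⟩ := ih
    set Z' := Z.filter fun t => ∀ x ∈ s, R t x with hZ'
    have hstep : ∃ x, ((Z'.filter fun t => R t x).card : ℝ) ≤ v / p * Z'.card := by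
      by_contra hcon
      push Not at hcon
      obtain ⟨x0, hx0⟩ : ∃ x, 0 < π x := by
        by_contra hno
        push Not at hno
        have : ∑ x, π x ≤ 0 := Finset.sum_nonpos fun x _ => hno x
        linarith
      have h1 : ∑ x, π x * (v / p * Z'.card) < ∑ x, π x * ((Z'.filter fun t => R t x).card : ℝ) := by
        apply Finset.sum_lt_sum
        · intro x _
          exact mul_le_mul_of_nonneg_left (hcon x).le (hπ x)
        · exact ⟨x0, Finset.mem_univ _, mul_lt_mul_of_pos_left (hcon x0) hx0⟩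
      have h2 : ∑ x, π x * ((Z'.filter fun t => R t x).card : ℝ) = ∑ t ∈ Z', ∑ x with R t x, π x := by
        have : ∀ x, π x * ((Z'.filter fun t => R t x).card : ℝ) =
            ∑ t ∈ Z', if R t x then π x else 0 := by
          intro x
          rw [← Finset.sum_filter, Finset.sum_const, nsmul_eq_mul]
          ring
        rw [Finset.sum_congr rfl fun x _ => this x, Finset.sum_comm]
        apply Finset.sum_congr rfl
        intro t _
        rw [Finset.sum_filter]
      have h3 : ∑ t ∈ Z', ∑ x with R t x, π x ≤ v * Z'.card := by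
        calc ∑ t ∈ Z', ∑ x with R t x, π x ≤ ∑ t ∈ Z', v := by
              apply Finset.sum_le_sum
              intro t ht
              exact hZ t (Finset.mem_filter.1 ht).1
          _ = v * Z'.card := by rw [Finset.sum_const, nsmul_eq_mul]; ring
      have h4 : v * Z'.card ≤ ∑ x, π x * (v / p * Z'.card) := by
        rw [← Finset.sum_mul]
        have hq : 0 ≤ v / p * Z'.card := by positivity
        calc v * Z'.card = p * (v / p * Z'.card) := by field_simp
          _ ≤ (∑ x, π x) * (v / p * Z'.card) := mul_le_mul_of_nonneg_right hsum hq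
      linarith
    obtain ⟨x, hx⟩ := hstep
    refine ⟨insert x s, ?_, ?_⟩
    · exact (Finset.card_insert_le _ _).trans (by omega)
    · have heq : (Z.filter fun t => ∀ y ∈ insert x s, R t y) = Z'.filter fun t => R t x := by
        ext t
        simp only [hZ', Finset.mem_filter, Finset.mem_insert, forall_eq_or_imp]
        tauto
      rw [heq, pow_succ]
      have hvp : 0 ≤ v / p := by positivity
      calc ((Z'.filter fun t => R t x).card : ℝ) ≤ v / p * Z'.card := hx
        _ ≤ v / p * ((v / p) ^ m * Z.card) := mul_le_mul_of_nonneg_left hc hvp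
        _ = (v / p) ^ m * (v / p) * Z.card := by ring

/-! ### Bases of minimal weight -/

lemma exists_min_basis {W : Type*} [AddCommGroup W] [Module (ZMod 2) W]
    [FiniteDimensional (ZMod 2) W] (c : W → ℕ) :
    ∃ b : Module.Basis (Fin (Module.finrank (ZMod 2) W)) (ZMod 2) W,
      ∀ γ : W, γ ∈ Submodule.span (ZMod 2) (b '' {i | c (b i) ≤ c γ}) := by
  classical
  let S : Set ℕ := {s | ∃ b : Module.Basis (Fin (Module.finrank (ZMod 2) W)) (ZMod 2) W,
    s = ∑ i, c (b i)}
  have hS : S.Nonempty := ⟨_, Module.finBasis (ZMod 2) W, rfl⟩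
  obtain ⟨b, hb⟩ : sInf S ∈ S := Nat.sInf_mem hS
  refine ⟨b, fun γ => ?_⟩
  have hsum : γ = ∑ i, b.repr γ i • b i := (b.sum_repr γ).symm
  have key : ∀ i, b.repr γ i ≠ 0 → c (b i) ≤ c γ := by
    intro i hi
    by_contra hlt
    push Not at hlt
    have hi1 : b.repr γ i = 1 := by
      have : ∀ a : ZMod 2, a ≠ 0 → a = 1 := by decide
      exact this _ hi
    let b' : Fin (Module.finrank (ZMod 2) W) → W := Function.update b i γ
    have hspan : ⊤ ≤ Submodule.span (ZMod 2) (Set.range b') := by
      rw [← b.span_eq, Submodule.span_le]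
      rintro _ ⟨j, rfl⟩
      have hj : ∀ j, j ≠ i → b j ∈ Submodule.span (ZMod 2) (Set.range b') := by
        intro j hji
        apply Submodule.subset_span
        exact ⟨j, by simp [b', Function.update_of_ne hji]⟩
      by_cases hji : j = i
      · subst hji
        have h1 : γ ∈ Submodule.span (ZMod 2) (Set.range b') :=
          Submodule.subset_span ⟨j, by simp [b']⟩
        have h2 : b j = γ - ∑ l ∈ Finset.univ.erase j, b.repr γ l • b l := by
          have := Finset.add_sum_erase Finset.univ (fun l => b.repr γ l • b l) (Finset.mem_univ j)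
          simp only [hi1, one_smul] at this
          rw [eq_sub_iff_add_eq, this]
          exact hsum.symm
        rw [h2]
        apply Submodule.sub_mem _ h1
        apply Submodule.sum_mem
        intro l hl
        exact Submodule.smul_mem _ _ (hj l (Finset.ne_of_mem_erase hl))
      · exact hj j hji
    let b'' := basisOfTopLeSpanOfCardEqFinrank b' hspan (by simp)
    have hb'' : ∀ j, b'' j = b' j := fun j => by simp [b'']
    have hmem : ∑ j, c (b'' j) ∈ S := ⟨b'', rfl⟩
    have hle : sInf S ≤ ∑ j, c (b'' j) := Nat.sInf_le hmem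
    have e1 : ∑ j, c (b'' j) = c γ + ∑ j ∈ Finset.univ.erase i, c (b j) := by
      rw [← Finset.add_sum_erase Finset.univ (fun j => c (b'' j)) (Finset.mem_univ i)]
      congr 1
      · rw [hb'']; simp [b']
      · apply Finset.sum_congr rfl
        intro j hj
        rw [hb'']
        simp [b', Function.update_of_ne (Finset.ne_of_mem_erase hj)]
    have e2 : ∑ j, c (b j) = c (b i) + ∑ j ∈ Finset.univ.erase i, c (b j) :=
      (Finset.add_sum_erase Finset.univ (fun j => c (b j)) (Finset.mem_univ i)).symm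
    omega
  rw [hsum]
  apply Submodule.sum_mem
  intro i _
  by_cases hi : b.repr γ i = 0
  · rw [hi, zero_smul]; exact Submodule.zero_mem _
  · apply Submodule.smul_mem
    apply Submodule.subset_span
    refine ⟨i, ?_, rfl⟩
    show c (b i) ≤ c (∑ i, b.repr γ i • b i)
    rw [← hsum]
    exact key i hi

/-! ### The number of restricted functionals -/

lemma count_bound {W : Type*} [AddCommGroup W] [Module (ZMod 2) W] [Fintype W] [DecidableEq W]
    (π : W → ℝ) (hπ : ∀ x, 0 ≤ π x) (L v : ℝ) (hL : 0 ≤ L)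
    (hW : ∀ W' : Submodule (ZMod 2) W,
      (Module.finrank (ZMod 2) W : ℝ) - Module.finrank (ZMod 2) W' ≤
        L * ∑ x ∈ (Set.toFinite {x : W | x ∉ W'}).toFinset, π x)
    (Z : Finset (Module.Dual (ZMod 2) W))
    (hZ : ∀ z ∈ Z, ∑ x with z x = 0, π x ≤ v) (s : ℝ) (hs : 0 ≤ s) :
    (Z.card : ℝ) * Real.exp (-(s * (L * v))) ≤
      (1 + Real.exp (-s)) ^ (Module.finrank (ZMod 2) W) := by
  classical
  set k := Module.finrank (ZMod 2) W with hk
  set N := Z.card with hN
  let c : W → ℕ := fun x => (Z.filter fun z => z x = 0).card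
  have hcN : ∀ x, c x ≤ N := fun x => Finset.card_filter_le _ _
  obtain ⟨b, hb⟩ := exists_min_basis c
  -- the weight of the basis
  have hlevel : ∀ t : ℕ, ((Finset.univ.filter fun i => t < c (b i)).card : ℝ) ≤
      L * ∑ x with t < c x, π x := by
    intro t
    set W' := Submodule.span (ZMod 2) (b '' {i | c (b i) ≤ t}) with hW'
    have h1 : Module.finrank (ZMod 2) W' ≤ (Finset.univ.filter fun i => c (b i) ≤ t).card := by
      have e : b '' {i | c (b i) ≤ t} =
          (((Finset.univ.filter fun i => c (b i) ≤ t).image b : Finset W) : Set W) := by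
        ext x; simp
      rw [hW', e]
      exact (finrank_span_finset_le_card _).trans Finset.card_image_le
    have h2 : (Finset.univ.filter fun i => t < c (b i)).card +
        (Finset.univ.filter fun i => c (b i) ≤ t).card = k := by
      have := Finset.card_filter_add_card_filter_not
        (s := (Finset.univ : Finset (Fin k))) (fun i => t < c (b i))
      simp only [not_lt, Finset.card_univ, Fintype.card_fin] at this
      exact this
    have h3 := hW W'
    have h4 : ∑ x ∈ (Set.toFinite {x : W | x ∉ W'}).toFinset, π x ≤ ∑ x with t < c x, π x := by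
      apply Finset.sum_le_sum_of_subset_of_nonneg
      · intro x hx
        simp only [Set.Finite.mem_toFinset, Set.mem_ofPred_eq] at hx
        simp only [Finset.mem_filter, Finset.mem_univ, true_and]
        by_contra hle
        push Not at hle
        apply hx
        refine Submodule.span_mono ?_ (hb x)
        apply Set.image_mono
        intro i hi
        exact le_trans hi hle
      · intro x _ _; exact hπ x
    have h5 : ((Finset.univ.filter fun i => t < c (b i)).card : ℝ) ≤ (k : ℝ) - Module.finrank (ZMod 2) W' := by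
      have : (Finset.univ.filter fun i => t < c (b i)).card + Module.finrank (ZMod 2) W' ≤ k := by
        omega
      have h6 : (((Finset.univ.filter fun i => t < c (b i)).card + Module.finrank (ZMod 2) W' : ℕ) : ℝ) ≤ k := by
        exact_mod_cast this
      push_cast at h6
      linarith
    calc ((Finset.univ.filter fun i => t < c (b i)).card : ℝ) ≤ _ := h5
      _ ≤ _ := h3
      _ ≤ _ := mul_le_mul_of_nonneg_left h4 hL
  have hcsum : ∀ x, (c x : ℝ) = ∑ t ∈ Finset.range N, if t < c x then (1 : ℝ) else 0 := by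
    intro x
    rw [← Finset.sum_filter, Finset.sum_const, nsmul_eq_mul, mul_one]
    congr 1
    have : (Finset.range N).filter (fun t => t < c x) = Finset.range (c x) := by
      ext t
      simp only [Finset.mem_filter, Finset.mem_range]
      have := hcN x
      omega
    rw [this, Finset.card_range]
  have hweight : ∑ i, (c (b i) : ℝ) ≤ L * v * N := by
    calc ∑ i, (c (b i) : ℝ) = ∑ i, ∑ t ∈ Finset.range N, if t < c (b i) then (1 : ℝ) else 0 :=
          Finset.sum_congr rfl fun i _ => hcsum (b i)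
      _ = ∑ t ∈ Finset.range N, ∑ i, if t < c (b i) then (1 : ℝ) else 0 := Finset.sum_comm
      _ = ∑ t ∈ Finset.range N, ((Finset.univ.filter fun i => t < c (b i)).card : ℝ) := by
          apply Finset.sum_congr rfl
          intro t _
          rw [← Finset.sum_filter, Finset.sum_const, nsmul_eq_mul, mul_one]
      _ ≤ ∑ t ∈ Finset.range N, L * ∑ x with t < c x, π x :=
          Finset.sum_le_sum fun t _ => hlevel t
      _ = L * ∑ t ∈ Finset.range N, ∑ x, if t < c x then π x else 0 := by
          rw [Finset.mul_sum]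
          apply Finset.sum_congr rfl
          intro t _
          rw [Finset.sum_filter]
      _ = L * ∑ x, π x * (c x : ℝ) := by
          rw [Finset.sum_comm]
          congr 1
          apply Finset.sum_congr rfl
          intro x _
          rw [hcsum x, Finset.mul_sum]
          apply Finset.sum_congr rfl
          intro t _
          split_ifs <;> simp
      _ = L * ∑ z ∈ Z, ∑ x with z x = 0, π x := by
          congr 1
          have : ∀ x, π x * (c x : ℝ) = ∑ z ∈ Z, if z x = 0 then π x else 0 := by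
            intro x
            rw [← Finset.sum_filter, Finset.sum_const, nsmul_eq_mul]
            ring
          rw [Finset.sum_congr rfl fun x _ => this x, Finset.sum_comm]
          apply Finset.sum_congr rfl
          intro z _
          rw [Finset.sum_filter]
      _ ≤ L * ∑ z ∈ Z, v := mul_le_mul_of_nonneg_left (Finset.sum_le_sum hZ) hL
      _ = L * v * N := by rw [Finset.sum_const, nsmul_eq_mul]; ring
  -- the number of zeros of a functional on the basis
  let φ : Module.Dual (ZMod 2) W → Finset (Fin k) := fun z => Finset.univ.filter fun i => z (b i) = 0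
  have hφ : Function.Injective φ := by
    intro z1 z2 h
    apply b.ext
    intro i
    have h2 : i ∈ φ z1 ↔ i ∈ φ z2 := by rw [h]
    simp only [φ, Finset.mem_filter, Finset.mem_univ, true_and] at h2
    have : ∀ a c : ZMod 2, (a = 0 ↔ c = 0) → a = c := by decide
    exact this _ _ h2
  have hφsum : ∑ z ∈ Z, ((φ z).card : ℝ) ≤ L * v * N := by
    refine le_trans (le_of_eq ?_) hweight
    have h1 : ∀ z, ((φ z).card : ℝ) = ∑ i, if z (b i) = 0 then (1 : ℝ) else 0 := by
      intro z
      rw [← Finset.sum_filter, Finset.sum_const, nsmul_eq_mul, mul_one]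
    rw [Finset.sum_congr rfl fun z _ => h1 z, Finset.sum_comm]
    apply Finset.sum_congr rfl
    intro i _
    rw [← Finset.sum_filter, Finset.sum_const, nsmul_eq_mul, mul_one]
  have hupper : ∑ z ∈ Z, Real.exp (-s) ^ (φ z).card ≤ (1 + Real.exp (-s)) ^ k := by
    have h1 : ∑ z ∈ Z, Real.exp (-s) ^ (φ z).card = ∑ S ∈ Z.image φ, Real.exp (-s) ^ S.card := by
      rw [Finset.sum_image]
      intro a _ b _ h
      exact hφ h
    rw [h1]
    calc ∑ S ∈ Z.image φ, Real.exp (-s) ^ S.card ≤ ∑ S : Finset (Fin k), Real.exp (-s) ^ S.card := by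
          apply Finset.sum_le_sum_of_subset_of_nonneg (Finset.subset_univ _)
          intro S _ _
          positivity
      _ = (1 + Real.exp (-s)) ^ k := by
          have := Fintype.sum_pow_mul_eq_add_pow (Fin k) (Real.exp (-s)) 1
          simp only [one_pow, mul_one, Fintype.card_fin] at this
          rw [this, add_comm]
  refine le_trans ?_ hupper
  have hterm : ∀ z ∈ Z, Real.exp (-(s * (L * v))) * (1 - s * ((φ z).card - L * v)) ≤
      Real.exp (-s) ^ (φ z).card := by
    intro z _
    have h1 := Real.add_one_le_exp (-(s * ((φ z).card - L * v)))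
    have h2 : Real.exp (-s) ^ (φ z).card =
        Real.exp (-(s * (L * v))) * Real.exp (-(s * ((φ z).card - L * v))) := by
      rw [← Real.exp_nat_mul, ← Real.exp_add]
      congr 1
      ring
    rw [h2]
    apply mul_le_mul_of_nonneg_left _ (Real.exp_pos _).le
    linarith
  calc (N : ℝ) * Real.exp (-(s * (L * v)))
      ≤ Real.exp (-(s * (L * v))) * (N - s * (∑ z ∈ Z, ((φ z).card : ℝ) - L * v * N)) := by
        have : 0 ≤ s * (L * v * N - ∑ z ∈ Z, ((φ z).card : ℝ)) := by
          apply mul_nonneg hs; linarith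
        have h2 : (N : ℝ) ≤ N - s * (∑ z ∈ Z, ((φ z).card : ℝ) - L * v * N) := by linarith
        calc (N : ℝ) * Real.exp (-(s * (L * v))) = Real.exp (-(s * (L * v))) * N := by ring
          _ ≤ _ := mul_le_mul_of_nonneg_left h2 (Real.exp_pos _).le
    _ = ∑ z ∈ Z, Real.exp (-(s * (L * v))) * (1 - s * ((φ z).card - L * v)) := by
        rw [← Finset.mul_sum]
        congr 1
        rw [Finset.sum_sub_distrib, ← Finset.mul_sum, Finset.sum_sub_distrib, Finset.sum_const,
          Finset.sum_const, nsmul_eq_mul, nsmul_eq_mul]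
        ring
    _ ≤ ∑ z ∈ Z, Real.exp (-s) ^ (φ z).card := Finset.sum_le_sum hterm

/-! ### Choice of the subspace -/

lemma core {E : Type*} [AddCommGroup E] [Module (ZMod 2) E] [Fintype E] [DecidableEq E]
    (π : E → ℝ) (hπ : ∀ x, 0 ≤ π x) (hsum : ∑ x, π x = 1) (v κ s : ℝ) (hκ : 0 < κ) (hv : 0 ≤ v)
    (hs : 0 ≤ s) (hn : 0 < Module.finrank (ZMod 2) E)
    (Z : Finset (Module.Dual (ZMod 2) E)) (hZ : ∀ z ∈ Z, ∑ x with z x = 0, π x ≤ v) (m : ℕ)
    (hm : (v / (κ / (1 + κ))) ^ m * ((1 + Real.exp (-s)) ^ (Module.finrank (ZMod 2) E) *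
      Real.exp (s * ((1 + κ) * (Module.finrank (ZMod 2) E) * v))) < 1) :
    ∃ S : Finset E, S.card ≤ m ∧ ∀ z ∈ Z, ∃ x ∈ S, z x ≠ 0 := by
  classical
  set n := Module.finrank (ZMod 2) E with hndef
  have hnR : (0 : ℝ) < n := by exact_mod_cast hn
  set L : ℝ := (1 + κ) * n with hLdef
  have hL : 0 < L := by positivity
  let Φ : Submodule (ZMod 2) E → ℝ := fun W =>
    (Module.finrank (ZMod 2) W : ℝ) - L * ∑ x with x ∈ W, π x
  have : Finite (Submodule (ZMod 2) E) := inferInstance
  obtain ⟨W, hWmin⟩ := Finite.exists_min Φ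
  -- the restriction of `π` to `W`
  have hsub : ∀ (P : E → Prop) [DecidablePred P],
      Finset.sum (Finset.filter (fun x : ↥W => P (x : E)) Finset.univ) (fun x : ↥W => π (x : E)) =
      ∑ x with x ∈ W ∧ P x, π x := by
    intro P _
    refine (Finset.sum_map (Finset.filter (fun x : ↥W => P (x : E)) Finset.univ)
      (Function.Embedding.subtype _) π).symm.trans ?_
    apply Finset.sum_congr _ (fun _ _ => rfl)
    ext x
    simp only [Finset.mem_map, Finset.mem_filter, Finset.mem_univ, true_and,
      Function.Embedding.coe_subtype, Subtype.exists]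
    constructor
    · rintro ⟨y, hy, h1, rfl⟩; exact ⟨hy, h1⟩
    · rintro ⟨hx, h1⟩; exact ⟨x, hx, h1, rfl⟩
  have hπW : κ / (1 + κ) ≤ ∑ x : W, π x := by
    have h1 := hWmin ⊤
    simp only [Φ, Submodule.mem_top, Finset.filter_true, hsum, finrank_top, mul_one] at h1
    have h2 : (∑ x : W, π x) = ∑ x with x ∈ W, π x := by
      have := hsub (fun _ => True)
      simpa using this
    rw [h2, div_le_iff₀ (by positivity)]
    have h3 : (0 : ℝ) ≤ Module.finrank (ZMod 2) W := by positivity
    have h4 : L - n ≤ L * ∑ x with x ∈ W, π x := by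
      rw [← hndef] at h1
      linarith
    have h5 : κ * n ≤ n * ((∑ x with x ∈ W, π x) * (1 + κ)) := by
      calc κ * n = L - n := by rw [hLdef]; ring
        _ ≤ L * ∑ x with x ∈ W, π x := h4
        _ = n * ((∑ x with x ∈ W, π x) * (1 + κ)) := by rw [hLdef]; ring
    nlinarith
  have hWsub : ∀ W' : Submodule (ZMod 2) W,
      (Module.finrank (ZMod 2) W : ℝ) - Module.finrank (ZMod 2) W' ≤
        L * ∑ x ∈ (Set.toFinite {x : W | x ∉ W'}).toFinset, π x := by
    intro W'
    have h1 := hWmin (W'.map W.subtype)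
    have h2 : Module.finrank (ZMod 2) (W'.map W.subtype) = Module.finrank (ZMod 2) W' :=
      LinearEquiv.finrank_eq (Submodule.equivMapOfInjective _ W.injective_subtype W').symm
    simp only [Φ, h2] at h1
    have h3 : ∑ x with x ∈ W, π x = ∑ x : W, π x := by
      have := hsub (fun _ => True)
      simpa using this.symm
    have h4 : ∑ x with x ∈ W'.map W.subtype, π x = ∑ x : W with x ∈ W', π x := by
      refine Eq.trans ?_ (Finset.sum_map ((Finset.univ : Finset W).filter (fun x => x ∈ W'))
        (Function.Embedding.subtype _) π)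
      apply Finset.sum_congr _ (fun _ _ => rfl)
      ext x
      simp only [Finset.mem_map, Finset.mem_filter, Finset.mem_univ, true_and,
        Function.Embedding.coe_subtype, Submodule.mem_map, Submodule.subtype_apply]
    have h5 : (∑ x : W with x ∈ W', π x) + ∑ x ∈ (Set.toFinite {x : W | x ∉ W'}).toFinset, π x =
        ∑ x : W, π x := by
      rw [← Finset.sum_filter_add_sum_filter_not Finset.univ (fun x : W => x ∈ W')
        (fun x : W => π x)]
      congr 1
      apply Finset.sum_congr _ (fun _ _ => rfl)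
      ext x
      simp
    rw [h3, h4, ← h5] at h1
    linarith
  let res : Module.Dual (ZMod 2) E → Module.Dual (ZMod 2) W := fun z => z ∘ₗ W.subtype
  let Zb := Z.image res
  have hZb : ∀ z ∈ Zb, ∑ x : W with z x = 0, π x ≤ v := by
    intro z hz
    obtain ⟨y, hy, rfl⟩ := Finset.mem_image.1 hz
    refine le_trans ?_ (hZ y hy)
    have h1 := hsub (fun x => y x = 0)
    refine (le_of_eq ?_).trans (h1.le.trans ?_)
    · rfl
    apply Finset.sum_le_sum_of_subset_of_nonneg
    · intro x hx
      simp only [Finset.mem_filter, Finset.mem_univ, true_and] at hx ⊢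
      exact hx.2
    · intro x _ _; exact hπ x
  have hcount := count_bound (fun x : W => π x) (fun x => hπ x) L v hL.le hWsub Zb hZb s hs
  have hcard : (Zb.card : ℝ) ≤ (1 + Real.exp (-s)) ^ n * Real.exp (s * (L * v)) := by
    have h1 : (Zb.card : ℝ) = Zb.card * Real.exp (-(s * (L * v))) * Real.exp (s * (L * v)) := by
      rw [mul_assoc, ← Real.exp_add]; simp
    rw [h1]
    apply mul_le_mul_of_nonneg_right _ (Real.exp_pos _).le
    refine hcount.trans ?_
    apply pow_le_pow_right₀
    · have := Real.exp_pos (-s); linarith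
    · exact Submodule.finrank_le W
  obtain ⟨S, hS1, hS2⟩ := greedy (fun (z : Module.Dual (ZMod 2) W) (x : W) => z x = 0)
    (fun x : W => π x) (fun x => hπ x) (κ / (1 + κ)) v (by positivity) hv hπW Zb hZb m
  have hlt : ((Zb.filter fun t => ∀ x ∈ S, t x = 0).card : ℝ) < 1 := by
    refine lt_of_le_of_lt hS2 (lt_of_le_of_lt ?_ hm)
    apply mul_le_mul_of_nonneg_left hcard
    positivity
  have hzero : (Zb.filter fun t => ∀ x ∈ S, t x = 0).card = 0 := by
    have : (Zb.filter fun t => ∀ x ∈ S, t x = 0).card < 1 := by exact_mod_cast hlt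
    omega
  rw [Finset.card_eq_zero, Finset.filter_eq_empty_iff] at hzero
  refine ⟨S.map (Function.Embedding.subtype _), by simpa using hS1, ?_⟩
  intro z hz
  have h1 := hzero (Finset.mem_image_of_mem res hz)
  push Not at h1
  obtain ⟨x, hx, hx2⟩ := h1
  exact ⟨x, by simpa using hx, hx2⟩

/-- Sanders' greedy argument. -/
lemma core0 {E : Type*} [AddCommGroup E] [Module (ZMod 2) E] [Fintype E] [DecidableEq E]
    (π : E → ℝ) (hπ : ∀ x, 0 ≤ π x) (hsum : ∑ x, π x = 1) (v : ℝ) (hv : 0 ≤ v)
    (Z : Finset (Module.Dual (ZMod 2) E)) (hZ : ∀ z ∈ Z, ∑ x with z x = 0, π x ≤ v) (m : ℕ)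
    (hm : v ^ m * Z.card < 1) :
    ∃ S : Finset E, S.card ≤ m ∧ ∀ z ∈ Z, ∃ x ∈ S, z x ≠ 0 := by
  classical
  obtain ⟨S, hS1, hS2⟩ := greedy (fun (z : Module.Dual (ZMod 2) E) (x : E) => z x = 0)
    π hπ 1 v one_pos hv hsum.ge Z hZ m
  rw [div_one] at hS2
  have hlt : ((Z.filter fun t => ∀ x ∈ S, t x = 0).card : ℝ) < 1 := lt_of_le_of_lt hS2 hm
  have hzero : (Z.filter fun t => ∀ x ∈ S, t x = 0).card = 0 := by
    have : (Z.filter fun t => ∀ x ∈ S, t x = 0).card < 1 := by exact_mod_cast hlt
    omega
  rw [Finset.card_eq_zero, Finset.filter_eq_empty_iff] at hzero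
  refine ⟨S, hS1, ?_⟩
  intro z hz
  have h1 := hzero hz
  push Not at h1
  exact h1

/-! ### Characters -/

/-- The sign character of `F_2`. -/
noncomputable def chi (a : ZMod 2) : ℝ := if a = 0 then 1 else -1

lemma chi_zero : chi 0 = 1 := by simp [chi]

lemma chi_one : chi 1 = -1 := by simp [chi]

lemma zmod2_cases (a : ZMod 2) : a = 0 ∨ a = 1 := by
  revert a; decide

lemma chi_add (a b : ZMod 2) : chi (a + b) = chi a * chi b := by
  have h11 : (1 : ZMod 2) + 1 = 0 := by decide
  rcases zmod2_cases a with rfl | rfl <;> rcases zmod2_cases b with rfl | rfl <;>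
    simp [chi_zero, chi_one, h11]

/-- The linear functional `γ ↦ ∑ i, z i * γ i`. -/
def pair {n : ℕ} (z : F2n n) : Module.Dual (ZMod 2) (F2n n) where
  toFun γ := ∑ i, z i * γ i
  map_add' x y := by simp [mul_add, Finset.sum_add_distrib]
  map_smul' c x := by
    simp only [Pi.smul_apply, smul_eq_mul, RingHom.id_apply, Finset.mul_sum]
    exact Finset.sum_congr rfl fun i _ => by ring

lemma pair_apply {n : ℕ} (z γ : F2n n) : pair z γ = ∑ i, z i * γ i := rfl

lemma pair_add {n : ℕ} (z y γ : F2n n) : pair (z + y) γ = pair z γ + pair y γ := by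
  simp [pair_apply, add_mul, Finset.sum_add_distrib]

lemma sum_chi {n : ℕ} (x : F2n n) :
    ∑ γ : F2n n, chi (pair x γ) = if x = 0 then (2 : ℝ) ^ n else 0 := by
  split_ifs with h
  · subst h
    have : ∀ γ : F2n n, chi (pair 0 γ) = 1 := by
      intro γ; simp [pair_apply, chi_zero]
    rw [Finset.sum_congr rfl fun γ _ => this γ]
    simp [ZMod.card]
  · obtain ⟨i, hi⟩ : ∃ i, x i ≠ 0 := by
      by_contra hcon
      push Not at hcon
      exact h (funext hcon)
    have hi1 : x i = 1 := by
      rcases zmod2_cases (x i) with h0 | h1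
      · exact absurd h0 hi
      · exact h1
    have h1 : ∑ γ : F2n n, chi (pair x γ) = ∑ γ : F2n n, chi (pair x (γ + Pi.single i 1)) :=
      (Equiv.sum_comp (Equiv.addRight (Pi.single i (1 : ZMod 2) : F2n n))
        (fun γ => chi (pair x γ))).symm
    have h2 : ∀ γ : F2n n, chi (pair x (γ + Pi.single i 1)) = - chi (pair x γ) := by
      intro γ
      rw [map_add, chi_add]
      have : pair x (Pi.single i 1) = 1 := by
        rw [pair_apply, Finset.sum_eq_single i]
        · simp [hi1]
        · intro j _ hj; simp [Pi.single_eq_of_ne hj]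
        · simp
      rw [this, chi_one]; ring
    rw [Finset.sum_congr rfl fun γ _ => h2 γ, Finset.sum_neg_distrib] at h1
    linarith

lemma card_F2n (n : ℕ) : Fintype.card (F2n n) = 2 ^ n := by
  simp [ZMod.card]

/-- The measure. -/
lemma exists_measure {n : ℕ} (A : Finset (F2n n)) (α : ℝ) (h0 : 0 < A.card)
    (hdens : α * 2 ^ n ≤ A.card) (hhalf : 2 * (A.card : ℝ) ≤ 2 ^ n) :
    ∃ π : F2n n → ℝ, (∀ γ, 0 ≤ π γ) ∧ ∑ γ, π γ = 1 ∧
      ∀ z : F2n n, (¬ ∃ a ∈ A, ∃ b ∈ A, a + b = z) →
        ∑ γ with pair z γ = 0, π γ ≤ (1 - 2 * α) / (2 - 2 * α) := by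
  classical
  set N : ℝ := (A.card : ℝ) with hN
  have hNpos : 0 < N := Nat.cast_pos.2 h0
  set Q : ℝ := (2 : ℝ) ^ n with hQ
  have hQpos : 0 < Q := by positivity
  have hW : 0 < N * (Q - N) := by
    apply mul_pos hNpos; linarith
  let S : F2n n → ℝ := fun γ => ∑ a ∈ A, chi (pair a γ)
  have hS0 : S 0 = N := by
    simp [S, chi_zero, hN]
  have hw : ∀ z : F2n n, ∑ γ, S γ ^ 2 * chi (pair z γ) =
      ∑ a ∈ A, ∑ b ∈ A, if a + b = z then Q else 0 := by
    intro z
    have h1 : ∀ γ, S γ ^ 2 * chi (pair z γ) = ∑ a ∈ A, ∑ b ∈ A, chi (pair (a + b + z) γ) := by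
      intro γ
      simp only [S]
      rw [pow_two, Finset.sum_mul_sum, Finset.sum_mul]
      apply Finset.sum_congr rfl; intro a _
      rw [Finset.sum_mul]
      apply Finset.sum_congr rfl; intro b _
      rw [pair_add, pair_add, chi_add, chi_add]
    rw [Finset.sum_congr rfl fun γ _ => h1 γ, Finset.sum_comm]
    apply Finset.sum_congr rfl; intro a _
    rw [Finset.sum_comm]
    apply Finset.sum_congr rfl; intro b _
    rw [sum_chi]
    have hiff : a + b + z = 0 ↔ a + b = z := by
      have hneg : -z = z := by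
        funext i
        have : ∀ a : ZMod 2, -a = a := by decide
        exact this (z i)
      rw [add_eq_zero_iff_eq_neg, hneg]
    simp only [hiff, hQ]
  have hw0 : ∑ γ, S γ ^ 2 = Q * N := by
    have h1 := hw 0
    have h2 : ∀ γ, S γ ^ 2 * chi (pair 0 γ) = S γ ^ 2 := by
      intro γ; simp [pair_apply, chi_zero]
    rw [Finset.sum_congr rfl fun γ _ => h2 γ] at h1
    rw [h1]
    have h3 : ∀ a ∈ A, (∑ b ∈ A, if a + b = 0 then Q else 0) = Q := by
      intro a ha
      rw [Finset.sum_eq_single a]
      · have : a + a = 0 := by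
          funext i
          have : ∀ a : ZMod 2, a + a = 0 := by decide
          exact this (a i)
        simp [this]
      · intro b _ hb
        rw [if_neg]
        intro hab
        apply hb
        have hneg : -b = b := by
          funext i
          have : ∀ a : ZMod 2, -a = a := by decide
          exact this (b i)
        rw [add_eq_zero_iff_eq_neg, hneg] at hab
        exact hab.symm
      · intro h; exact absurd ha h
    rw [Finset.sum_congr rfl h3, Finset.sum_const, nsmul_eq_mul]
    ring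
  let π : F2n n → ℝ := fun γ => if γ = 0 then 0 else S γ ^ 2 / (N * (Q - N))
  have hπnn : ∀ γ, 0 ≤ π γ := by
    intro γ
    simp only [π]
    split_ifs
    · exact le_rfl
    · positivity
  have hπsum : ∀ P : F2n n → Prop, [DecidablePred P] → P 0 →
      ∑ γ with P γ, π γ = ((∑ γ with P γ, S γ ^ 2) - N ^ 2) / (N * (Q - N)) := by
    intro P _ hP
    have hmem : (0 : F2n n) ∈ Finset.univ.filter P := by simp [hP]
    rw [← Finset.add_sum_erase _ _ hmem, ← Finset.add_sum_erase _ (fun γ => S γ ^ 2) hmem, hS0]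
    have h1 : π 0 = 0 := by simp [π]
    rw [h1]
    have h2 : ∑ x ∈ (Finset.univ.filter P).erase 0, π x =
        ∑ x ∈ (Finset.univ.filter P).erase 0, S x ^ 2 / (N * (Q - N)) := by
      apply Finset.sum_congr rfl
      intro x hx
      simp [π, Finset.ne_of_mem_erase hx]
    rw [h2, ← Finset.sum_div]
    ring
  refine ⟨π, hπnn, ?_, ?_⟩
  · have h1 := hπsum (fun _ => True) trivial
    simp only [Finset.filter_true] at h1
    rw [h1, hw0, div_eq_one_iff_eq hW.ne']
    ring
  · intro z hz
    rw [hπsum (fun γ => pair z γ = 0) (map_zero _)]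
    have h1 : ∑ γ with pair z γ = 0, S γ ^ 2 = Q * N / 2 := by
      have h2 : ∀ γ, (if pair z γ = 0 then S γ ^ 2 else 0) =
          (S γ ^ 2 + S γ ^ 2 * chi (pair z γ)) / 2 := by
        intro γ
        simp only [chi]
        split_ifs <;> ring
      rw [Finset.sum_filter, Finset.sum_congr rfl fun γ _ => h2 γ, ← Finset.sum_div,
        Finset.sum_add_distrib, hw0, hw z]
      have h3 : (∑ a ∈ A, ∑ b ∈ A, if a + b = z then Q else 0) = 0 := by
        apply Finset.sum_eq_zero; intro a ha
        apply Finset.sum_eq_zero; intro b hb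
        rw [if_neg]
        intro hab
        exact hz ⟨a, ha, b, hb, hab⟩
      rw [h3]; ring
    rw [h1]
    have hα : α ≤ 1 / 2 := by
      by_contra hcon
      push Not at hcon
      nlinarith
    rw [div_le_div_iff₀ hW (by linarith)]
    have h5 : 0 ≤ N - α * Q := by linarith
    have h6 : 0 ≤ N * (N - α * Q) := mul_nonneg hNpos.le h5
    nlinarith

/-! ### Subspaces -/

lemma pair_comm {n : ℕ} (x y : F2n n) : pair x y = pair y x := by
  simp [pair_apply, mul_comm]

lemma exists_sub {n d : ℕ} (V : Submodule (ZMod 2) (F2n n))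
    (hd : d ≤ Module.finrank (ZMod 2) V) :
    ∃ V' : Submodule (ZMod 2) (F2n n), V' ≤ V ∧ Module.finrank (ZMod 2) V' = d := by
  let b := Module.finBasis (ZMod 2) V
  let f : Fin d → F2n n := fun i => (b (Fin.castLE hd i) : F2n n)
  have hf : LinearIndependent (ZMod 2) f := by
    have h1 : LinearIndependent (ZMod 2) (fun i : Fin d => b (Fin.castLE hd i)) :=
      b.linearIndependent.comp _ (Fin.castLE_injective hd)
    exact h1.map' V.subtype (by simp)
  refine ⟨Submodule.span (ZMod 2) (Set.range f), ?_, ?_⟩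
  · rw [Submodule.span_le]
    rintro _ ⟨i, rfl⟩
    exact (b (Fin.castLE hd i)).2
  · rw [finrank_span_eq_card hf]; simp

lemma subspace_of_points {n : ℕ} (A : Finset (F2n n)) (S : Finset (F2n n)) (m : ℕ)
    (hS : S.card ≤ m)
    (h : ∀ z : F2n n, (¬ ∃ a ∈ A, ∃ b ∈ A, a + b = z) → ∃ x ∈ S, pair z x ≠ 0) :
    ∃ V : Submodule (ZMod 2) (F2n n), n ≤ Module.finrank (ZMod 2) V + m ∧
      ∀ x ∈ V, ∃ a ∈ A, ∃ b ∈ A, a + b = x := by
  classical
  let f : F2n n →ₗ[ZMod 2] (S → ZMod 2) := LinearMap.pi fun x : S => pair (x : F2n n)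
  refine ⟨LinearMap.ker f, ?_, ?_⟩
  · have h1 := LinearMap.finrank_range_add_finrank_ker f
    have h2 : Module.finrank (ZMod 2) (LinearMap.range f) ≤ S.card := by
      refine (Submodule.finrank_le _).trans ?_
      simp
    simp only [Module.finrank_fintype_fun_eq_card, Fintype.card_fin] at h1
    omega
  · intro z hz
    by_contra hcon
    obtain ⟨x, hx, hx2⟩ := h z hcon
    apply hx2
    rw [pair_comm]
    rw [LinearMap.mem_ker] at hz
    exact congrFun hz ⟨x, hx⟩

lemma sumset_eq_univ {n : ℕ} (A : Finset (F2n n)) (h : (2 : ℝ) ^ n < 2 * A.card) (z : F2n n) :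
    ∃ a ∈ A, ∃ b ∈ A, a + b = z := by
  classical
  have hneg : ∀ x : F2n n, x + x = 0 := by
    intro x
    funext i
    have : ∀ a : ZMod 2, a + a = 0 := by decide
    exact this (x i)
  have h1 : (A.image fun a => z + a).card = A.card :=
    Finset.card_image_of_injective _ (add_right_injective z)
  have h2 : 2 ^ n < 2 * A.card := by exact_mod_cast h
  have h3 : ¬ Disjoint A (A.image fun a => z + a) := by
    intro hd
    have h4 := Finset.card_union_of_disjoint hd
    have h5 : (A ∪ A.image fun a => z + a).card ≤ 2 ^ n := by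
      rw [← card_F2n n]; exact Finset.card_le_univ _
    omega
  rw [Finset.not_disjoint_iff] at h3
  obtain ⟨a, ha, hb⟩ := h3
  obtain ⟨b, hb, hab⟩ := Finset.mem_image.1 hb
  refine ⟨a, ha, b, hb, ?_⟩
  rw [← hab, add_assoc, hneg, add_zero]

lemma codim_le {n : ℕ} (α : ℝ) (m : ℕ) (hα : α ≤ 1)
    (h : ∀ A : Finset (F2n n), DensityGE α A →
      ∃ V : Submodule (ZMod 2) (F2n n), n ≤ Module.finrank (ZMod 2) V + m ∧
        ∀ x ∈ V, ∃ a ∈ A, ∃ b ∈ A, a + b = x) :
    codimCoset α n ≤ m := by
  classical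
  have hmem : n - m ∈ {d : ℕ | ∀ A : Finset (F2n n), DensityGE α A → ContainsCoset A d} := by
    intro A hA
    obtain ⟨V, hV, hV2⟩ := h A hA
    obtain ⟨V', hle, hV'⟩ := exists_sub (d := n - m) V (by omega)
    refine ⟨0, V', hV', ?_⟩
    intro v hv
    rw [zero_add]
    exact hV2 v (hle hv)
  have hbdd : BddAbove {d : ℕ | ∀ A : Finset (F2n n), DensityGE α A → ContainsCoset A d} := by
    refine ⟨n, ?_⟩
    intro d hd
    obtain ⟨x, V, hV, -⟩ := hd Finset.univ (by
      unfold DensityGE
      rw [Finset.card_univ, card_F2n]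
      push_cast
      have : (0 : ℝ) < 2 ^ n := by positivity
      nlinarith)
    rw [← hV]
    refine (Submodule.finrank_le V).trans ?_
    simp
  have h1 : n - m ≤ dimCoset α n := le_csSup hbdd hmem
  unfold codimCoset
  omega

/-! ### Numerical estimates -/

lemma numeric (κ η v : ℝ) (n m : ℕ) (hn : 0 < n) (hκ : 0 < κ) (hv : 0 < v)
    (hl : 1 + (1 + η) * Real.log ((1 + κ) / κ) ≤ (η - κ) * (-Real.log v))
    (hlog : Real.log ((1 + κ) / κ) ≤ -Real.log v)
    (hm : (1 + η) * v * n ≤ m) :
    (v / (κ / (1 + κ))) ^ m * ((1 + Real.exp (-(-Real.log v))) ^ n *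
      Real.exp ((-Real.log v) * ((1 + κ) * n * v))) < 1 := by
  set l := -Real.log v with hldef
  set q := Real.log ((1 + κ) / κ) with hq
  have hnR : (0 : ℝ) < n := by exact_mod_cast hn
  have h1 : Real.exp (-l) = v := by rw [hldef, neg_neg, Real.exp_log hv]
  have h2 : v / (κ / (1 + κ)) = Real.exp (q - l) := by
    rw [sub_eq_add_neg, Real.exp_add, h1, hq, Real.exp_log (by positivity)]
    field_simp
  have h3 : (1 + v) ^ n < Real.exp (n * v) := by
    rw [Real.exp_nat_mul]
    apply pow_lt_pow_left₀ _ (by positivity) hn.ne'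
    have := Real.add_one_lt_exp hv.ne'
    linarith
  rw [h1, h2, ← Real.exp_nat_mul]
  have h4 : Real.exp (m * (q - l)) * ((1 + v) ^ n * Real.exp (l * ((1 + κ) * n * v))) <
      Real.exp (m * (q - l)) * (Real.exp (n * v) * Real.exp (l * ((1 + κ) * n * v))) := by
    apply mul_lt_mul_of_pos_left _ (Real.exp_pos _)
    exact mul_lt_mul_of_pos_right h3 (Real.exp_pos _)
  refine lt_of_lt_of_le h4 ?_
  rw [← Real.exp_add, ← Real.exp_add, Real.exp_le_one_iff]
  have h5 : (m : ℝ) * (q - l) ≤ ((1 + η) * v * n) * (q - l) :=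
    mul_le_mul_of_nonpos_right hm (by linarith)
  have h6 : (n * v) * (1 + (1 + η) * q - (η - κ) * l) ≤ 0 :=
    mul_nonpos_of_nonneg_of_nonpos (by positivity) (by linarith)
  nlinarith

/-! ### The main statement about sets -/

lemma main_sets {n : ℕ} (hn : 0 < n) (α : ℝ) (hα0 : 0 < α) (hα : α ≤ 1 / 2) (m : ℕ)
    (hm : n ≤ m ∨ ((1 - 2 * α) / (2 - 2 * α)) ^ m * 2 ^ n < 1 ∨
      ∃ κ η : ℝ, 0 < κ ∧ 0 < (1 - 2 * α) / (2 - 2 * α) ∧
        1 + (1 + η) * Real.log ((1 + κ) / κ) ≤
          (η - κ) * (-Real.log ((1 - 2 * α) / (2 - 2 * α))) ∧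
        Real.log ((1 + κ) / κ) ≤ -Real.log ((1 - 2 * α) / (2 - 2 * α)) ∧
        (1 + η) * ((1 - 2 * α) / (2 - 2 * α)) * n ≤ m)
    (A : Finset (F2n n)) (hA : DensityGE α A) :
    ∃ V : Submodule (ZMod 2) (F2n n), n ≤ Module.finrank (ZMod 2) V + m ∧
      ∀ x ∈ V, ∃ a ∈ A, ∃ b ∈ A, a + b = x := by
  classical
  unfold DensityGE at hA
  have hcard : 0 < A.card := by
    have h1 : (0 : ℝ) < A.card := lt_of_lt_of_le (by positivity) hA
    exact_mod_cast h1
  by_cases hbig : (2 : ℝ) ^ n < 2 * A.card
  · refine ⟨⊤, by simp, fun x _ => sumset_eq_univ A hbig x⟩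
  push Not at hbig
  set v : ℝ := (1 - 2 * α) / (2 - 2 * α) with hv
  have hv0 : 0 ≤ v := div_nonneg (by linarith) (by linarith)
  obtain ⟨π, hπ, hsum, hZ⟩ := exists_measure A α hcard hA hbig
  let Z : Finset (Module.Dual (ZMod 2) (F2n n)) :=
    (Finset.univ.filter fun z : F2n n => ¬ ∃ a ∈ A, ∃ b ∈ A, a + b = z).image pair
  have hZ' : ∀ z ∈ Z, ∑ x with z x = 0, π x ≤ v := by
    intro z hz
    obtain ⟨y, hy, rfl⟩ := Finset.mem_image.1 hz
    exact hZ y (Finset.mem_filter.1 hy).2
  have hfin : (∃ S : Finset (F2n n), S.card ≤ m ∧ ∀ z ∈ Z, ∃ x ∈ S, z x ≠ 0) →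
      ∃ V : Submodule (ZMod 2) (F2n n), n ≤ Module.finrank (ZMod 2) V + m ∧
      ∀ x ∈ V, ∃ a ∈ A, ∃ b ∈ A, a + b = x := by
    rintro ⟨S, hS, hS2⟩
    apply subspace_of_points A S m hS
    intro z hz
    exact hS2 (pair z) (Finset.mem_image_of_mem _ (by simpa using hz))
  rcases hm with hm | hm | ⟨κ, η, hκ, hvpos, hl, hlog, hm⟩
  · refine ⟨⊥, by omega, ?_⟩
    intro x hx
    rw [Submodule.mem_bot] at hx
    obtain ⟨a, ha⟩ := Finset.card_pos.1 hcard
    refine ⟨a, ha, a, ha, ?_⟩
    rw [hx]
    funext i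
    have : ∀ a : ZMod 2, a + a = 0 := by decide
    exact this (a i)
  · apply hfin
    apply core0 π hπ hsum v hv0 Z hZ' m
    refine lt_of_le_of_lt ?_ hm
    apply mul_le_mul_of_nonneg_left _ (by positivity)
    have h1 : Z.card ≤ 2 ^ n := by
      refine Finset.card_image_le.trans ?_
      rw [← card_F2n n]
      exact Finset.card_le_univ _
    exact_mod_cast h1
  · apply hfin
    have hfr : Module.finrank (ZMod 2) (F2n n) = n := by simp
    have hs : 0 ≤ -Real.log v := by
      have h1 : 0 ≤ Real.log ((1 + κ) / κ) := by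
        apply Real.log_nonneg
        rw [le_div_iff₀ hκ]; linarith
      linarith
    apply core π hπ hsum v κ (-Real.log v) hκ hv0 hs (by rw [hfr]; exact hn) Z hZ' m
    rw [hfr]
    exact numeric κ η v n m hn hκ hvpos hl hlog hm

/-- The sumset of a set of density at least `α ∈ (0, 1/2]` contains a coset of codimension at
most `4 v n + 1`, where `v = (1 - 2α) / (2 - 2α)`, and at most `(1 + η) v n + 1` when `v` is
sufficiently small in terms of `η`. -/
theorem result (α : ℝ) (n : ℕ) (hα0 : 0 < α) (hα : α ≤ 1 / 2) (hn : 1 ≤ n) :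
    (codimCoset α n : ℝ) ≤ 4 * ((1 - 2 * α) / (2 - 2 * α)) * n + 1 ∧
    ∀ η : ℝ, 0 < η →
      (1 - 2 * α) / (2 - 2 * α) ≤
        Real.exp (-(2 / η * (1 + (1 + η) * Real.log (1 + 2 / η)))) →
      (codimCoset α n : ℝ) ≤ (1 + η) * ((1 - 2 * α) / (2 - 2 * α)) * n + 1 := by
  set v : ℝ := (1 - 2 * α) / (2 - 2 * α) with hv
  have hv0 : 0 ≤ v := div_nonneg (by linarith) (by linarith)
  have hnR : (0 : ℝ) < n := by exact_mod_cast hn
  -- it suffices to treat an integer just above the bound
  have hred : ∀ C : ℝ, 0 ≤ C → (∀ m : ℕ, C * v * n < m → codimCoset α n ≤ m) →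
      (codimCoset α n : ℝ) ≤ C * v * n + 1 := by
    intro C hC h
    have h0 : 0 ≤ C * v * n := by positivity
    have h1 : C * v * n < ((⌊C * v * n⌋₊ + 1 : ℕ) : ℝ) := by
      push_cast; exact Nat.lt_floor_add_one _
    have h2 := h _ h1
    have h3 : (codimCoset α n : ℝ) ≤ ((⌊C * v * n⌋₊ + 1 : ℕ) : ℝ) := by exact_mod_cast h2
    have h4 : (⌊C * v * n⌋₊ : ℝ) ≤ C * v * n := Nat.floor_le h0
    push_cast at h3
    linarith
  have hzero : v = 0 → ∀ m : ℕ, 0 < m → codimCoset α n ≤ m := by
    intro h0 m hm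
    apply codim_le α m (by linarith)
    apply main_sets hn α hα0 hα m
    right; left
    rw [← hv, h0, zero_pow hm.ne', zero_mul]
    exact one_pos
  constructor
  · apply hred 4 (by norm_num)
    intro m hm
    rcases hv0.eq_or_lt with h0 | hpos
    · apply hzero h0.symm m
      rw [← h0] at hm
      have : (0 : ℝ) < m := by linarith
      exact_mod_cast this
    apply codim_le α m (by linarith)
    apply main_sets hn α hα0 hα m
    rw [← hv]
    by_cases h4 : 1 / 4 < v
    · left
      have h1 : (n : ℝ) < m := by nlinarith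
      have h2 : n < m := by exact_mod_cast h1
      exact h2.le
    push Not at h4
    by_cases h8 : 1 / 8 < v
    · right; left
      have h1 : (n : ℝ) < (2 * m : ℕ) := by push_cast; nlinarith
      have h2 : n < 2 * m := by exact_mod_cast h1
      have h3 : v ^ m ≤ (1 / 4) ^ m := pow_le_pow_left₀ hv0 h4 m
      have h5 : (2 : ℝ) ^ n < 2 ^ (2 * m) := pow_lt_pow_right₀ (by norm_num) h2
      calc v ^ m * 2 ^ n ≤ (1 / 4) ^ m * 2 ^ n := by
            apply mul_le_mul_of_nonneg_right h3; positivity
        _ < (1 / 4) ^ m * 2 ^ (2 * m) := by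
            apply mul_lt_mul_of_pos_left h5; positivity
        _ = 1 := by
            rw [pow_mul, ← mul_pow]; norm_num
    push Not at h8
    right; right
    have hl2 : 1 / 2 < Real.log 2 := by
      have := Real.log_two_gt_d9
      linarith
    have hl8 : 3 * Real.log 2 ≤ -Real.log v := by
      have h1 : Real.log v ≤ Real.log (1 / 8) := Real.log_le_log hpos h8
      have h2 : Real.log (1 / 8 : ℝ) = -(3 * Real.log 2) := by
        rw [one_div, Real.log_inv]
        have : (8 : ℝ) = 2 ^ 3 := by norm_num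
        rw [this, Real.log_pow]
        push_cast; ring
      linarith
    refine ⟨1, 3, one_pos, hpos, ?_, ?_, ?_⟩
    · norm_num; linarith
    · norm_num; linarith
    · linarith
  · intro η hη hvη
    apply hred (1 + η) (by linarith)
    intro m hm
    rcases hv0.eq_or_lt with h0 | hpos
    · apply hzero h0.symm m
      rw [← h0] at hm
      have : (0 : ℝ) < m := by linarith
      exact_mod_cast this
    apply codim_le α m (by linarith)
    apply main_sets hn α hα0 hα m
    rw [← hv]
    right; right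
    have h1 : (1 + η / 2) / (η / 2) = 1 + 2 / η := by field_simp; ring
    have hq : 0 ≤ Real.log (1 + 2 / η) := by
      apply Real.log_nonneg
      have : 0 < 2 / η := by positivity
      linarith
    have h2 : 2 / η * (1 + (1 + η) * Real.log (1 + 2 / η)) ≤ -Real.log v := by
      have := Real.log_le_log hpos hvη
      rw [Real.log_exp] at this
      linarith
    refine ⟨η / 2, η, by positivity, hpos, ?_, ?_, hm.le⟩
    · rw [h1]
      have h3 : η / 2 * (2 / η * (1 + (1 + η) * Real.log (1 + 2 / η))) ≤ η / 2 * -Real.log v :=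
        mul_le_mul_of_nonneg_left h2 (by positivity)
      have h4 : η / 2 * (2 / η * (1 + (1 + η) * Real.log (1 + 2 / η))) =
          1 + (1 + η) * Real.log (1 + 2 / η) := by field_simp
      have h5 : η - η / 2 = η / 2 := by ring
      rw [h5]
      linarith
    · rw [h1]
      refine le_trans ?_ h2
      have h3 : 2 / η * (1 + (1 + η) * Real.log (1 + 2 / η)) =
          2 / η + (2 / η + 2) * Real.log (1 + 2 / η) := by field_simp
      rw [h3]
      have h4 : 0 < 2 / η := by positivity
      nlinarith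

end Pool.Agent.Results.MP_9bde79_co.CosetNearHalf
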