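import Mathlib
import Pool.Agent.Results.MP_9bde79_co.CosetNearHalf

open Finset

namespace Pool.Agent.Results.MP_9bde79_co.CosetQuadratic

/-- The vector space `F_2^n`. -/
abbrev F2n (n : ℕ) : Type := Fin n → ZMod 2

/-- `A ⊆ F_2^n` has density at least `α`. -/
def DensityGE (α : ℝ) {n : ℕ} (A : Finset (F2n n)) : Prop :=
  α * 2 ^ n ≤ (A.card : ℝ)

/-- The sumset `A + A` contains a coset of dimension `d`. -/
def ContainsCoset {n : ℕ} (A : Finset (F2n n)) (d : ℕ) : Prop :=
  ∃ (x : F2n n) (V : Submodule (ZMod 2) (F2n n)), Module.finrank (ZMod 2) V = d ∧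
    ∀ v ∈ V, ∃ a ∈ A, ∃ b ∈ A, a + b = x + v

/-- `d(α, n)`: the largest `d` such that for every `A ⊆ F_2^n` of density at least `α` the sumset
`A + A` contains a coset of dimension `d`. -/
noncomputable def dimCoset (α : ℝ) (n : ℕ) : ℕ :=
  sSup {d : ℕ | ∀ A : Finset (F2n n), DensityGE α A → ContainsCoset A d}

/-- `m(α, n) = n - d(α, n)`. -/
noncomputable def codimCoset (α : ℝ) (n : ℕ) : ℤ := (n : ℤ) - (dimCoset α n : ℤ)

/-! ### The two-point inequality -/

lemma step (a b h0 h1 c c' : ℝ) (hb : 0 ≤ b) (hba : b ≤ a) (ha1 : a ≤ 1)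
    (hc : 0 < c) (hc'0 : 0 ≤ c') (hcc : c' * (1 + c ^ 2 / 8) ≤ c) (hc' : c' ≤ 4 / 3)
    (i1 : a + c * (a * (1 - a)) + h0 ≤ 1) (i2 : b + c * (b * (1 - b)) + h1 ≤ 1)
    (i3 : a + h1 ≤ 1) :
    (a + b) / 2 + c' * ((a + b) / 2 * (1 - (a + b) / 2)) + (h0 + h1) / 2 ≤ 1 := by
  have hJa : 0 ≤ a * (1 - a) := mul_nonneg (by linarith) (by linarith)
  have hJb : 0 ≤ b * (1 - b) := mul_nonneg hb (by linarith)
  have hJb4 : b * (1 - b) ≤ 1 / 4 := by nlinarith [sq_nonneg (b - 1 / 2)]
  have hx0 : 0 ≤ a - b := by linarith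
  have hmid : (a + b) / 2 * (1 - (a + b) / 2) =
      (a * (1 - a) + b * (1 - b)) / 2 + (a - b) ^ 2 / 4 := by ring
  rw [hmid]
  set Ja := a * (1 - a) with hJadef
  set Jb := b * (1 - b) with hJbdef
  set x := a - b with hxdef
  have hc'c : c' ≤ c := by nlinarith [mul_nonneg hc'0 (sq_nonneg c)]
  have hd : c' * c ^ 2 / 8 ≤ c - c' := by linarith
  by_cases h : x ≤ c * Jb
  · -- the two densities are close
    have hx4 : x ≤ c / 4 := by nlinarith
    have hx2 : x ^ 2 ≤ c ^ 2 * Jb / 4 := by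
      have : x * x ≤ (c * Jb) * (c / 4) := mul_le_mul h hx4 hx0 (by positivity)
      nlinarith
    have h1 : c' * (x ^ 2 / 4) ≤ c' * (c ^ 2 * Jb / 16) :=
      mul_le_mul_of_nonneg_left (by linarith) hc'0
    have h2 : c' * c ^ 2 / 8 * Jb ≤ (c - c') * Jb := mul_le_mul_of_nonneg_right hd hJb
    have h3 : 0 ≤ (c - c') * Ja := mul_nonneg (by linarith) hJa
    nlinarith
  · push Not at h
    -- `x - c' x² / 2 ≥ c' Jb`
    have key : c' * Jb + c' * x ^ 2 / 2 ≤ x := by
      by_cases h4 : x ≤ c / 4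
      · have h5 : c' * (c * Jb) ≤ c' * x := mul_le_mul_of_nonneg_left h.le hc'0
        have h6 : c * c' * x / 2 ≤ c - c' := by
          have : c * c' * x ≤ c * c' * (c / 4) := mul_le_mul_of_nonneg_left h4 (by positivity)
          nlinarith
        have h7 : c * c' * x / 2 * x ≤ (c - c') * x := mul_le_mul_of_nonneg_right h6 hx0
        have h8 : c * (c' * Jb + c' * x ^ 2 / 2) ≤ c * x := by nlinarith
        exact le_of_mul_le_mul_left h8 hc
      · push Not at h4
        have hx1 : x ≤ 1 := by linarith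
        have h5 : c' * Jb ≤ c' / 4 := by nlinarith
        -- concavity between `c / 4` and `1`
        have h6 : 0 ≤ (x - c / 4) * (1 - x) * (c' / 2) := by
          apply mul_nonneg (mul_nonneg (by linarith) (by linarith)) (by linarith)
        have hcle : c / 4 < 1 := by linarith
        -- value at `c/4`
        have h7 : c' / 4 ≤ c / 4 - c' * (c / 4) ^ 2 / 2 := by nlinarith
        have h8 : c' / 4 ≤ 1 - c' / 2 := by linarith
        -- `f x = x - c' x²/2`; (1 - c/4) f x = (1 - x) f (c/4) + (x - c/4) f 1 + positive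
        have h9 : (1 - c / 4) * (x - c' * x ^ 2 / 2) =
            (1 - x) * (c / 4 - c' * (c / 4) ^ 2 / 2) + (x - c / 4) * (1 - c' / 2) +
              (1 - c / 4) * ((x - c / 4) * (1 - x) * (c' / 2)) := by ring
        have h10 : (1 - c / 4) * (c' / 4) ≤ (1 - c / 4) * (x - c' * x ^ 2 / 2) := by
          rw [h9]
          have e1 : (1 - x) * (c' / 4) ≤ (1 - x) * (c / 4 - c' * (c / 4) ^ 2 / 2) :=
            mul_le_mul_of_nonneg_left h7 (by linarith)
          have e2 : (x - c / 4) * (c' / 4) ≤ (x - c / 4) * (1 - c' / 2) :=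
            mul_le_mul_of_nonneg_left h8 (by linarith)
          have e3 : 0 ≤ (1 - c / 4) * ((x - c / 4) * (1 - x) * (c' / 2)) :=
            mul_nonneg (by linarith) h6
          nlinarith
        have h11 := le_of_mul_le_mul_left h10 (by linarith : (0 : ℝ) < 1 - c / 4)
        linarith
    have h3 : 0 ≤ (c - c') * Ja := mul_nonneg (by linarith) hJa
    nlinarith

/-- Symmetric form of the previous inequality. -/
lemma step' (a b h0 h1 c c' : ℝ) (ha : 0 ≤ a) (hb : 0 ≤ b) (hh0 : 0 ≤ h0) (hh1 : 0 ≤ h1)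
    (hc : 0 < c) (hc'0 : 0 ≤ c') (hcc : c' * (1 + c ^ 2 / 8) ≤ c) (hc' : c' ≤ 4 / 3)
    (i1 : a + c * (a * (1 - a)) + h0 ≤ 1) (i2 : b + c * (b * (1 - b)) + h1 ≤ 1)
    (i3 : a + h1 ≤ 1) (i4 : b + h0 ≤ 1) :
    (a + b) / 2 + c' * ((a + b) / 2 * (1 - (a + b) / 2)) + (h0 + h1) / 2 ≤ 1 := by
  rcases le_total b a with h | h
  · exact step a b h0 h1 c c' hb h (by linarith) hc hc'0 hcc hc' i1 i2 i3
  · have := step b a h1 h0 c c' ha h (by linarith) hc hc'0 hcc hc' i2 i1 i4
    rw [add_comm b a, add_comm h1 h0] at this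
    exact this

/-- The constants. -/
noncomputable def cst (k : ℕ) : ℝ := Real.sqrt (3 / (k + 1))

lemma cst_pos (k : ℕ) : 0 < cst k := Real.sqrt_pos.2 (by positivity)

lemma cst_sq (k : ℕ) : cst k ^ 2 = 3 / (k + 1) := Real.sq_sqrt (by positivity)

lemma cst_step (k : ℕ) : cst (k + 1) * (1 + cst k ^ 2 / 8) ≤ cst k := by
  rw [cst_sq]
  have h1 : 0 ≤ cst (k + 1) * (1 + 3 / ((k : ℝ) + 1) / 8) := by
    have := cst_pos (k + 1)
    positivity
  apply le_of_sq_le_sq _ (cst_pos k).le
  rw [mul_pow, cst_sq, cst_sq]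
  push_cast
  have hk : (0 : ℝ) ≤ k := Nat.cast_nonneg k
  have h2 : (3 : ℝ) / (k + 1 + 1) * (1 + 3 / (k + 1) / 8) ^ 2 =
      3 / (k + 1) * (((k + 1) * (1 + 3 / (k + 1) / 8) ^ 2) / (k + 1 + 1)) := by
    field_simp
  rw [h2]
  apply mul_le_of_le_one_right (by positivity)
  rw [div_le_one (by positivity)]
  have h3 : ((k : ℝ) + 1) * (1 + 3 / (k + 1) / 8) ^ 2 =
      (k + 1) + 3 / 4 + 9 / (64 * (k + 1)) := by
    field_simp
    ring
  rw [h3]
  have h4 : (9 : ℝ) / (64 * (k + 1)) ≤ 1 / 4 := by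
    rw [div_le_div_iff₀ (by positivity) (by norm_num)]
    linarith
  linarith

lemma cst_le (k : ℕ) : cst (k + 1) ≤ 4 / 3 := by
  apply le_of_sq_le_sq _ (by norm_num)
  rw [cst_sq]
  push_cast
  have hk : (0 : ℝ) ≤ k := Nat.cast_nonneg k
  rw [div_le_iff₀ (by positivity)]
  nlinarith

/-! ### Averages over the even and the odd subsums -/

/-- The averages of `g` over the even and over the odd subsums of a list of vectors `z0 :: L`. -/
noncomputable def PQ {n : ℕ} (g : F2n n → ℝ) (z0 : F2n n) :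
    List (F2n n) → (F2n n → ℝ) × (F2n n → ℝ)
  | [] => (g, fun x => g (x + z0))
  | z :: L => (fun x => ((PQ g z0 L).1 x + (PQ g z0 L).2 (x + z)) / 2,
      fun x => ((PQ g z0 L).2 x + (PQ g z0 L).1 (x + z)) / 2)

lemma add_self' {n : ℕ} (z : F2n n) : z + z = 0 := by
  funext i
  have : ∀ a : ZMod 2, a + a = 0 := by decide
  exact this (z i)

lemma PQ_good {n : ℕ} (g : F2n n → ℝ) (hg : ∀ x, g x = 0 ∨ g x = 1) (D : F2n n → Prop)
    (hD : ∀ z, D z → ∀ x, g x + g (x + z) ≤ 1) (z0 : F2n n) (hz0 : D z0) (L : List (F2n n))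
    (hL : ∀ z ∈ L, D z) :
    (∀ x, 0 ≤ (PQ g z0 L).1 x) ∧ (∀ x, 0 ≤ (PQ g z0 L).2 x) ∧
    (∀ z, D z → ∀ x, (PQ g z0 L).1 x + (PQ g z0 L).1 (x + z) ≤ 1) ∧
    (∀ z, D z → ∀ x, (PQ g z0 L).2 x + (PQ g z0 L).2 (x + z) ≤ 1) ∧
    (∀ x, (PQ g z0 L).1 x + cst L.length * ((PQ g z0 L).1 x * (1 - (PQ g z0 L).1 x)) +
      (PQ g z0 L).2 x ≤ 1) ∧
    (∀ x, (PQ g z0 L).2 x + cst L.length * ((PQ g z0 L).2 x * (1 - (PQ g z0 L).2 x)) +
      (PQ g z0 L).1 x ≤ 1) := by
  induction L with
  | nil =>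
    have hJ : ∀ x, g x * (1 - g x) = 0 := by
      intro x
      rcases hg x with h | h <;> rw [h] <;> ring
    have h0 : ∀ x, 0 ≤ g x := by
      intro x
      rcases hg x with h | h <;> rw [h] <;> norm_num
    refine ⟨h0, fun x => h0 _, hD, ?_, ?_, ?_⟩
    · intro z hz x
      have := hD z hz (x + z0)
      show g (x + z0) + g (x + z + z0) ≤ 1
      have e : x + z + z0 = x + z0 + z := by abel
      rw [e]; exact this
    · intro x
      show g x + cst 0 * (g x * (1 - g x)) + g (x + z0) ≤ 1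
      rw [hJ]
      have := hD z0 hz0 x
      linarith
    · intro x
      show g (x + z0) + cst 0 * (g (x + z0) * (1 - g (x + z0))) + g x ≤ 1
      rw [hJ]
      have := hD z0 hz0 x
      linarith
  | cons y L ih =>
    obtain ⟨i1, i2, i3, i4, i5, i6⟩ := ih (fun z hz => hL z (List.mem_cons_of_mem _ hz))
    have hy : D y := hL y (List.mem_cons_self)
    set P := (PQ g z0 L).1 with hP
    set Q := (PQ g z0 L).2 with hQ
    have hP' : ∀ x, (PQ g z0 (y :: L)).1 x = (P x + Q (x + y)) / 2 := fun x => rfl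
    have hQ' : ∀ x, (PQ g z0 (y :: L)).2 x = (Q x + P (x + y)) / 2 := fun x => rfl
    have hlen : (y :: L).length = L.length + 1 := rfl
    have hcpos := cst_pos L.length
    have hcpos' := (cst_pos (L.length + 1)).le
    have hcs := cst_step L.length
    have hcl := cst_le L.length
    refine ⟨?_, ?_, ?_, ?_, ?_, ?_⟩
    · intro x; rw [hP']
      have := i1 x; have := i2 (x + y); linarith
    · intro x; rw [hQ']
      have := i2 x; have := i1 (x + y); linarith
    · intro z hz x
      rw [hP', hP']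
      have e : x + z + y = x + y + z := by abel
      have h1 := i3 z hz x
      have h2 := i4 z hz (x + y)
      rw [e]; linarith
    · intro z hz x
      rw [hQ', hQ']
      have e : x + z + y = x + y + z := by abel
      have h1 := i4 z hz x
      have h2 := i3 z hz (x + y)
      rw [e]; linarith
    · intro x
      rw [hP', hQ', hlen]
      have := step' (P x) (Q (x + y)) (Q x) (P (x + y)) (cst L.length) (cst (L.length + 1))
        (i1 _) (i2 _) (i2 _) (i1 _) hcpos hcpos' hcs hcl (i5 x) (i6 (x + y)) (i3 y hy x)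
        (by have := i4 y hy x; linarith)
      exact this
    · intro x
      rw [hP', hQ', hlen]
      have := step' (Q x) (P (x + y)) (P x) (Q (x + y)) (cst L.length) (cst (L.length + 1))
        (i2 _) (i1 _) (i1 _) (i2 _) hcpos hcpos' hcs hcl (i6 x) (i5 (x + y)) (i4 y hy x)
        (by have := i3 y hy x; linarith)
      exact this

/-! ### Fourier transform -/

open CosetNearHalf in
/-- The Fourier transform. -/
noncomputable def ft {n : ℕ} (h : F2n n → ℝ) (γ : F2n n) : ℝ := ∑ x, h x * chi (pair x γ)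

open CosetNearHalf in
lemma chi_mul_self (a : ZMod 2) : chi a * chi a = 1 := by
  rcases zmod2_cases a with rfl | rfl
  · simp [chi_zero]
  · simp [chi_one]

open CosetNearHalf in
lemma ft_shift {n : ℕ} (h : F2n n → ℝ) (z γ : F2n n) :
    ft (fun x => h (x + z)) γ = chi (pair z γ) * ft h γ := by
  unfold ft
  rw [Finset.mul_sum]
  have h1 : ∑ x, h (x + z) * chi (pair x γ) = ∑ x, h x * chi (pair (x + z) γ) := by
    rw [← Equiv.sum_comp (Equiv.addRight z) (fun x => h x * chi (pair (x + z) γ))]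
    apply Finset.sum_congr rfl
    intro x _
    simp only [Equiv.coe_addRight]
    rw [add_assoc, add_self', add_zero]
  rw [h1]
  apply Finset.sum_congr rfl
  intro x _
  rw [pair_add, chi_add]; ring

open CosetNearHalf in
lemma ft_half {n : ℕ} (h k : F2n n → ℝ) (γ : F2n n) :
    ft (fun x => (h x + k x) / 2) γ = (ft h γ + ft k γ) / 2 := by
  unfold ft
  rw [← Finset.sum_add_distrib, Finset.sum_div]
  apply Finset.sum_congr rfl
  intro x _
  ring

open CosetNearHalf in
lemma ft_PQ {n : ℕ} (g : F2n n → ℝ) (z0 : F2n n) (L : List (F2n n)) (γ : F2n n) :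
    ((∀ z ∈ L, pair z γ = pair z0 γ) → ft (PQ g z0 L).1 γ = ft g γ ∧
      ft (PQ g z0 L).2 γ = chi (pair z0 γ) * ft g γ) ∧
    ((¬ ∀ z ∈ L, pair z γ = pair z0 γ) → ft (PQ g z0 L).1 γ = 0 ∧ ft (PQ g z0 L).2 γ = 0) := by
  induction L with
  | nil =>
    refine ⟨fun _ => ⟨rfl, ft_shift g z0 γ⟩, fun h => absurd (by simp) h⟩
  | cons y L ih =>
    obtain ⟨ih1, ih2⟩ := ih
    have e1 : ft (PQ g z0 (y :: L)).1 γ =
        (ft (PQ g z0 L).1 γ + chi (pair y γ) * ft (PQ g z0 L).2 γ) / 2 := by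
      have := ft_half (PQ g z0 L).1 (fun x => (PQ g z0 L).2 (x + y)) γ
      rw [ft_shift] at this
      exact this
    have e2 : ft (PQ g z0 (y :: L)).2 γ =
        (ft (PQ g z0 L).2 γ + chi (pair y γ) * ft (PQ g z0 L).1 γ) / 2 := by
      have := ft_half (PQ g z0 L).2 (fun x => (PQ g z0 L).1 (x + y)) γ
      rw [ft_shift] at this
      exact this
    rw [e1, e2]
    constructor
    · intro h
      have hy : pair y γ = pair z0 γ := h y List.mem_cons_self
      obtain ⟨h1, h2⟩ := ih1 (fun z hz => h z (List.mem_cons_of_mem _ hz))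
      rw [h1, h2, hy]
      have := chi_mul_self (pair z0 γ)
      constructor
      · rw [← mul_assoc, this]; ring
      · ring
    · intro h
      by_cases hL : ∀ z ∈ L, pair z γ = pair z0 γ
      · have hy : pair y γ ≠ pair z0 γ := by
          intro hy
          apply h
          intro z hz
          rcases List.mem_cons.1 hz with rfl | hz
          · exact hy
          · exact hL z hz
        obtain ⟨h1, h2⟩ := ih1 hL
        rw [h1, h2]
        have hc : chi (pair y γ) = - chi (pair z0 γ) := by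
          rcases zmod2_cases (pair y γ) with h3 | h3
          · rcases zmod2_cases (pair z0 γ) with h4 | h4
            · rw [h3, h4] at hy; exact absurd rfl hy
            · rw [h3, h4]; simp [chi_zero, chi_one]
          · rcases zmod2_cases (pair z0 γ) with h4 | h4
            · rw [h3, h4]; simp [chi_zero, chi_one]
            · rw [h3, h4] at hy; exact absurd rfl hy
        rw [hc]
        have := chi_mul_self (pair z0 γ)
        constructor
        · have e : -chi (pair z0 γ) * (chi (pair z0 γ) * ft g γ) =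
            -(chi (pair z0 γ) * chi (pair z0 γ)) * ft g γ := by ring
          rw [e, this]; ring
        · ring
      · obtain ⟨h1, h2⟩ := ih2 hL
        rw [h1, h2]
        simp

open CosetNearHalf in
lemma parseval {n : ℕ} (h k : F2n n → ℝ) :
    ∑ γ, ft h γ * ft k γ = 2 ^ n * ∑ x, h x * k x := by
  have h1 : ∀ γ, ft h γ * ft k γ = ∑ x, ∑ y, h x * k y * chi (pair (x + y) γ) := by
    intro γ
    unfold ft
    rw [Finset.sum_mul_sum]
    apply Finset.sum_congr rfl; intro x _
    apply Finset.sum_congr rfl; intro y _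
    rw [pair_add, chi_add]; ring
  rw [Finset.sum_congr rfl fun γ _ => h1 γ, Finset.sum_comm, Finset.mul_sum]
  apply Finset.sum_congr rfl; intro x _
  rw [Finset.sum_comm, Finset.sum_eq_single x]
  · rw [← Finset.mul_sum, sum_chi, if_pos (add_self' x)]
    ring
  · intro y _ hy
    rw [← Finset.mul_sum, sum_chi, if_neg, mul_zero]
    intro h
    apply hy
    have h2 : x + y + y = y := by rw [h, zero_add]
    rw [add_assoc, add_self', add_zero] at h2
    exact h2.symm
  · intro h; exact absurd (Finset.mem_univ _) h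

open CosetNearHalf in
lemma ft_zero {n : ℕ} (h : F2n n → ℝ) : ft h 0 = ∑ x, h x := by
  unfold ft
  apply Finset.sum_congr rfl
  intro x _
  rw [map_zero, chi_zero, mul_one]

/-! ### The mass of the characters which are not constant on a set of missing sums -/

/-- The indicator function. -/
noncomputable def ind {n : ℕ} (A : Finset (F2n n)) (x : F2n n) : ℝ :=
  open Classical in if x ∈ A then 1 else 0

lemma ind_cases {n : ℕ} (A : Finset (F2n n)) (x : F2n n) : ind A x = 0 ∨ ind A x = 1 := by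
  unfold ind
  split_ifs
  · right; rfl
  · left; rfl

lemma sum_ind {n : ℕ} (A : Finset (F2n n)) : ∑ x, ind A x = A.card := by
  classical
  unfold ind
  simp

/-- `z` is not a sum of two elements of `A`. -/
def Miss {n : ℕ} (A : Finset (F2n n)) (z : F2n n) : Prop := ¬ ∃ a ∈ A, ∃ b ∈ A, a + b = z

lemma ind_miss {n : ℕ} (A : Finset (F2n n)) (z : F2n n) (hz : Miss A z) (x : F2n n) :
    ind A x + ind A (x + z) ≤ 1 := by
  by_cases h1 : x ∈ A
  · by_cases h2 : x + z ∈ A
    · exact absurd ⟨x, h1, x + z, h2, by rw [← add_assoc, add_self', zero_add]⟩ hz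
    · simp [ind, h1, h2]
  · rcases ind_cases A (x + z) with h | h <;> (simp [ind, h1] at h ⊢)
    · simp [h]
    · simp [h]

open CosetNearHalf in
lemma mass_bound {n : ℕ} (A : Finset (F2n n)) (T : Finset (F2n n)) (hT : T.Nonempty)
    (hTm : ∀ z ∈ T, Miss A z) :
    ∃ z0 ∈ T, (open Classical in ∑ γ with ¬ ∀ z ∈ T, pair z γ = pair z0 γ, ft (ind A) γ ^ 2) *
      Real.sqrt (3 / T.card) ≤ 2 ^ n * (2 ^ n - 2 * A.card) := by
  classical
  obtain ⟨z0, L, hTL⟩ : ∃ z0 L, T.toList = z0 :: L := by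
    cases h : T.toList with
    | nil =>
      rw [Finset.toList_eq_nil] at h
      exact absurd h hT.ne_empty
    | cons z0 L => exact ⟨z0, L, rfl⟩
  have hz0 : z0 ∈ T := by
    rw [← Finset.mem_toList, hTL]; exact List.mem_cons_self
  have hLT : ∀ z ∈ L, z ∈ T := by
    intro z hz
    rw [← Finset.mem_toList, hTL]; exact List.mem_cons_of_mem _ hz
  have hcard : ((L.length : ℝ) + 1) = T.card := by
    have h := Finset.length_toList T
    rw [hTL, List.length_cons] at h
    exact_mod_cast h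
  have hall : ∀ γ : F2n n, (∀ z ∈ T, pair z γ = pair z0 γ) ↔ ∀ z ∈ L, pair z γ = pair z0 γ := by
    intro γ
    constructor
    · intro h z hz; exact h z (hLT z hz)
    · intro h z hz
      rw [← Finset.mem_toList, hTL] at hz
      rcases List.mem_cons.1 hz with rfl | hz
      · rfl
      · exact h z hz
  refine ⟨z0, hz0, ?_⟩
  obtain ⟨i1, i2, -, -, i5, -⟩ := PQ_good (ind A) (ind_cases A) (Miss A) (fun z hz x => ind_miss A z hz x)
    z0 (hTm z0 hz0) L (fun z hz => hTm z (hLT z hz))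
  set P := (PQ (ind A) z0 L).1 with hP
  set Q := (PQ (ind A) z0 L).2 with hQ
  set g := ind A with hg
  have hft := ft_PQ g z0 L
  have hsumP : ∑ x, P x = A.card := by
    rw [← ft_zero, (hft 0).1 (by intro z _; simp) |>.1, ft_zero, sum_ind]
  have hsumQ : ∑ x, Q x = A.card := by
    rw [← ft_zero, ((hft 0).1 (by intro z _; simp)).2, ft_zero, sum_ind]
    simp [chi_zero]
  have hP2 : ∑ γ with ∀ z ∈ T, pair z γ = pair z0 γ, ft g γ ^ 2 = 2 ^ n * ∑ x, P x * P x := by
    rw [← parseval, Finset.sum_filter]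
    apply Finset.sum_congr rfl
    intro γ _
    by_cases h : ∀ z ∈ T, pair z γ = pair z0 γ
    · rw [if_pos h, ((hft γ).1 ((hall γ).1 h)).1]; ring
    · rw [if_neg h, ((hft γ).2 (fun h' => h ((hall γ).2 h'))).1]; ring
  have hg2 : ∑ γ, ft g γ ^ 2 = 2 ^ n * A.card := by
    have h1 : ∀ γ, ft g γ ^ 2 = ft g γ * ft g γ := fun γ => by ring
    rw [Finset.sum_congr rfl fun γ _ => h1 γ, parseval, ← sum_ind A]
    congr 1
    apply Finset.sum_congr rfl
    intro x _
    show ind A x * ind A x = ind A x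
    rcases ind_cases A x with h | h <;> rw [h] <;> ring
  have hnot : ∑ γ with ¬ ∀ z ∈ T, pair z γ = pair z0 γ, ft g γ ^ 2 =
      2 ^ n * ∑ x, P x * (1 - P x) := by
    have h1 := Finset.sum_filter_add_sum_filter_not Finset.univ
      (fun γ => ∀ z ∈ T, pair z γ = pair z0 γ) (fun γ => ft g γ ^ 2)
    rw [hP2, hg2] at h1
    have h2 : ∑ x, P x * (1 - P x) = ∑ x, P x - ∑ x, P x * P x := by
      rw [← Finset.sum_sub_distrib]
      apply Finset.sum_congr rfl
      intro x _; ring
    rw [h2, hsumP]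
    linarith
  rw [hnot]
  have hc : Real.sqrt (3 / T.card) = cst L.length := by
    unfold cst; rw [hcard]
  rw [hc, mul_assoc]
  apply mul_le_mul_of_nonneg_left _ (by positivity)
  rw [Finset.sum_mul]
  calc ∑ x, P x * (1 - P x) * cst L.length ≤ ∑ x, (1 - P x - Q x) := by
        apply Finset.sum_le_sum
        intro x _
        have := i5 x
        linarith
    _ = 2 ^ n - 2 * A.card := by
        rw [Finset.sum_sub_distrib, Finset.sum_sub_distrib, hsumP, hsumQ, Finset.sum_const,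
          Finset.card_univ, card_F2n, nsmul_eq_mul]
        push_cast
        ring

/-! ### The spectral measure and its core -/

open CosetNearHalf in
/-- The spectral measure of `A`, without the trivial character. -/
lemma exists_spectral {n : ℕ} (A : Finset (F2n n)) (h0 : 0 < A.card)
    (hhalf : 2 * (A.card : ℝ) ≤ 2 ^ n) (θ : ℝ) (hθ : θ = 1 - 2 * A.card / 2 ^ n) :
    ∃ π : F2n n → ℝ, (∀ γ, 0 ≤ π γ) ∧ ∑ γ, π γ = 1 ∧
      (∀ z : F2n n, Miss A z → (open Classical in ∑ γ with pair z γ = 0, π γ) ≤ θ / (1 + θ)) ∧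
      (∀ T : Finset (F2n n), T.Nonempty → (∀ z ∈ T, Miss A z) →
        ∃ z0 ∈ T, (open Classical in ∑ γ with ¬ ∀ z ∈ T, pair z γ = pair z0 γ, π γ) *
          Real.sqrt (3 / T.card) ≤ 4 * θ / (1 - θ ^ 2)) := by
  classical
  set N : ℝ := (A.card : ℝ) with hN
  have hNpos : 0 < N := Nat.cast_pos.2 h0
  set Q : ℝ := (2 : ℝ) ^ n with hQ
  have hQpos : 0 < Q := by positivity
  have hW : 0 < N * (Q - N) := mul_pos hNpos (by linarith)
  have hN' : N = (1 - θ) / 2 * Q := by rw [hθ]; field_simp; ring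
  have hθ0 : 0 ≤ θ := by
    rw [hθ, sub_nonneg, div_le_one hQpos]; exact hhalf
  have hθ1 : θ < 1 := by
    rw [hθ]
    have : 0 < 2 * N / Q := div_pos (mul_pos two_pos hNpos) hQpos
    linarith
  have hQN : Q - N = (1 + θ) / 2 * Q := by rw [hN']; ring
  let π : F2n n → ℝ := fun γ => if γ = 0 then 0 else ft (ind A) γ ^ 2 / (N * (Q - N))
  have hπnn : ∀ γ, 0 ≤ π γ := by
    intro γ
    simp only [π]
    split_ifs
    · exact le_rfl
    · exact div_nonneg (sq_nonneg _) hW.le
  have hft0 : ft (ind A) 0 = N := by rw [ft_zero, sum_ind]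
  have htot : ∑ γ, ft (ind A) γ ^ 2 = Q * N := by
    have h1 : ∀ γ, ft (ind A) γ ^ 2 = ft (ind A) γ * ft (ind A) γ := fun γ => by ring
    rw [Finset.sum_congr rfl fun γ _ => h1 γ, parseval, hN, ← sum_ind A]
    congr 1
    apply Finset.sum_congr rfl
    intro x _
    rcases ind_cases A x with h | h <;> rw [h] <;> ring
  have hπsum : ∀ P : F2n n → Prop, [DecidablePred P] → P 0 →
      ∑ γ with P γ, π γ = ((∑ γ with P γ, ft (ind A) γ ^ 2) - N ^ 2) / (N * (Q - N)) := by
    intro P _ hP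
    have hmem : (0 : F2n n) ∈ Finset.univ.filter P := Finset.mem_filter.2 ⟨Finset.mem_univ _, hP⟩
    rw [← Finset.add_sum_erase _ _ hmem, ← Finset.add_sum_erase _ (fun γ => ft (ind A) γ ^ 2) hmem,
      hft0]
    have h1 : π 0 = 0 := if_pos rfl
    rw [h1]
    have h2 : ∑ x ∈ (Finset.univ.filter P).erase 0, π x =
        ∑ x ∈ (Finset.univ.filter P).erase 0, ft (ind A) x ^ 2 / (N * (Q - N)) := by
      apply Finset.sum_congr rfl
      intro x hx
      exact if_neg (Finset.ne_of_mem_erase hx)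
    rw [h2, ← Finset.sum_div]
    ring
  refine ⟨π, hπnn, ?_, ?_, ?_⟩
  · have h1 := hπsum (fun _ => True) trivial
    simp only [Finset.filter_true] at h1
    rw [h1, htot, div_eq_one_iff_eq hW.ne']
    ring
  · intro z hz
    rw [hπsum (fun γ => pair z γ = 0) (map_zero _)]
    have hcross : ∑ γ, ft (ind A) γ ^ 2 * chi (pair z γ) = 0 := by
      have h1 : ∀ γ, ft (ind A) γ ^ 2 * chi (pair z γ) =
          ft (ind A) γ * ft (fun x => ind A (x + z)) γ := by
        intro γ; rw [ft_shift]; ring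
      rw [Finset.sum_congr rfl fun γ _ => h1 γ, parseval]
      have h2 : ∑ x, ind A x * ind A (x + z) = 0 := by
        apply Finset.sum_eq_zero
        intro x _
        have h3 := ind_miss A z hz x
        rcases ind_cases A x with h | h
        · rw [h, zero_mul]
        · rcases ind_cases A (x + z) with h' | h'
          · rw [h', mul_zero]
          · rw [h, h'] at h3; norm_num at h3
      rw [h2, mul_zero]
    have h1 : ∑ γ with pair z γ = 0, ft (ind A) γ ^ 2 = Q * N / 2 := by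
      have h2 : ∀ γ, (if pair z γ = 0 then ft (ind A) γ ^ 2 else 0) =
          (ft (ind A) γ ^ 2 + ft (ind A) γ ^ 2 * chi (pair z γ)) / 2 := by
        intro γ
        simp only [chi]
        split_ifs <;> ring
      rw [Finset.sum_filter, Finset.sum_congr rfl fun γ _ => h2 γ, ← Finset.sum_div,
        Finset.sum_add_distrib, htot, hcross]
      ring
    rw [h1, div_le_div_iff₀ hW (by linarith), hQN, hN']
    have h5 : 0 < (1 - θ) * Q * Q := by
      apply mul_pos (mul_pos (by linarith) hQpos) hQpos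
    apply le_of_eq
    ring
  · intro T hT hTm
    obtain ⟨z0, hz0, hb⟩ := mass_bound A T hT hTm
    refine ⟨z0, hz0, ?_⟩
    have h1 : ∑ γ with ¬ ∀ z ∈ T, pair z γ = pair z0 γ, π γ =
        (∑ γ with ¬ ∀ z ∈ T, pair z γ = pair z0 γ, ft (ind A) γ ^ 2) / (N * (Q - N)) := by
      rw [Finset.sum_div]
      apply Finset.sum_congr rfl
      intro γ hγ
      have hne : γ ≠ 0 := by
        rintro rfl
        rw [Finset.mem_filter] at hγ
        apply hγ.2
        intro z _
        rw [map_zero, map_zero]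
      exact if_neg hne
    rw [h1, div_mul_eq_mul_div, div_le_div_iff₀ hW (by nlinarith)]
    have h2 : 2 ^ n * (2 ^ n - 2 * (A.card : ℝ)) = Q * (θ * Q) := by
      rw [← hQ, ← hN, hN']; ring
    rw [h2] at hb
    have h3 : (1 - θ ^ 2) * (Q * (θ * Q)) = 4 * θ * (N * (Q - N)) := by
      rw [hQN, hN']; ring
    have h4 : 0 < 1 - θ ^ 2 := by nlinarith
    calc _ ≤ Q * (θ * Q) * (1 - θ ^ 2) := mul_le_mul_of_nonneg_right hb h4.le
      _ = _ := by rw [mul_comm, h3]

lemma aux1 (M k : ℝ) (hk : 0 < k) : M ^ 2 = M ^ 2 * (3 / k) * (k / 3) := by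
  field_simp

lemma aux2 (θ k : ℝ) (h : 0 < 1 - θ ^ 2) :
    (4 * θ / (1 - θ ^ 2)) ^ 2 * (k / 3) = (4 / 9) / (1 - θ ^ 2) ^ 2 * (12 * θ ^ 2 * k) := by
  field_simp
  ring

open CosetNearHalf in
/-- After removing a core, every missing sum is a `1` of all but `32 θ²` of the measure. -/
lemma exists_core {n : ℕ} (A : Finset (F2n n)) (h0 : 0 < A.card)
    (hhalf : 2 * (A.card : ℝ) ≤ 2 ^ n) (θ : ℝ) (hθ : θ = 1 - 2 * A.card / 2 ^ n)
    (hθs : θ ^ 2 ≤ 1 / 128) :
    ∃ π : F2n n → ℝ, (∀ γ, 0 ≤ π γ) ∧ ∑ γ, π γ = 1 ∧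
      (∀ z : F2n n, Miss A z → (open Classical in ∑ γ with pair z γ = 0, π γ) ≤ 32 * θ ^ 2) := by
  classical
  obtain ⟨ρ, hρ, hsum, hv, hT⟩ := exists_spectral A h0 hhalf θ hθ
  have hθ0 : 0 ≤ θ := by
    rw [hθ, sub_nonneg, div_le_one (by positivity)]; exact hhalf
  have hθ1 : θ < 1 := by nlinarith
  set w : ℝ := 12 * θ ^ 2 with hw
  have hw0 : 0 ≤ w := by positivity
  let C : Finset (F2n n) → Finset (F2n n) := fun T => Finset.univ.filter fun γ => ∃ z ∈ T, pair z γ = 0
  let Dm : Finset (F2n n) := Finset.univ.filter fun z => Miss A z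
  obtain ⟨T, hTD, hTmax⟩ := Finset.exists_max_image Dm.powerset
    (fun T => ∑ γ ∈ C T, ρ γ - w * T.card) ⟨∅, Finset.empty_mem_powerset _⟩
  rw [Finset.mem_powerset] at hTD
  have hTm : ∀ z ∈ T, Miss A z := by
    intro z hz
    exact (Finset.mem_filter.1 (hTD hz)).2
  set R : ℝ := ∑ γ ∈ C T, ρ γ with hR
  have hR0 : 0 ≤ R := Finset.sum_nonneg fun γ _ => hρ γ
  have hk : w * T.card ≤ R := by
    have h1 := hTmax ∅ (Finset.empty_mem_powerset _)
    have h2 : C ∅ = ∅ := by simp [C]
    simp only [h2, Finset.sum_empty, Finset.card_empty, Nat.cast_zero, mul_zero, sub_zero] at h1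
    linarith
  -- the core has mass at most `5/8`
  have hR58 : R ≤ 5 / 8 := by
    rcases T.eq_empty_or_nonempty with hem | hne
    · have : R = 0 := by
        rw [hR, hem]
        have h2 : C ∅ = ∅ := by simp [C]
        rw [h2, Finset.sum_empty]
      rw [this]; norm_num
    · obtain ⟨z0, hz0, hM⟩ := hT T hne hTm
      set M : ℝ := ∑ γ with ¬ ∀ z ∈ T, pair z γ = pair z0 γ, ρ γ with hMdef
      have hM0 : 0 ≤ M := Finset.sum_nonneg fun γ _ => hρ γ
      have hv0 := hv z0 (hTm z0 hz0)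
      set V : ℝ := ∑ γ with pair z0 γ = 0, ρ γ with hVdef
      have hV0 : 0 ≤ V := Finset.sum_nonneg fun γ _ => hρ γ
      have hRM : R ≤ M + V := by
        rw [hR, hMdef, hVdef, ← Finset.sum_union_inter]
        have h1 : 0 ≤ ∑ γ ∈ (Finset.univ.filter fun γ => ¬ ∀ z ∈ T, pair z γ = pair z0 γ) ∩
            (Finset.univ.filter fun γ => pair z0 γ = 0), ρ γ := Finset.sum_nonneg fun γ _ => hρ γ
        have h2 : ∑ γ ∈ C T, ρ γ ≤ ∑ γ ∈ (Finset.univ.filter fun γ => ¬ ∀ z ∈ T, pair z γ = pair z0 γ) ∪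
            (Finset.univ.filter fun γ => pair z0 γ = 0), ρ γ := by
          apply Finset.sum_le_sum_of_subset_of_nonneg
          · intro γ hγ
            simp only [C, Finset.mem_filter, Finset.mem_univ, true_and] at hγ
            obtain ⟨z, hz, hz2⟩ := hγ
            simp only [Finset.mem_union, Finset.mem_filter, Finset.mem_univ, true_and]
            by_cases h : ∀ z ∈ T, pair z γ = pair z0 γ
            · right; rw [← h z hz, hz2]
            · left; exact h
          · intro γ _ _; exact hρ γ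
        linarith
      have hkpos : (0 : ℝ) < T.card := by exact_mod_cast hne.card_pos
      have hs : 0 < Real.sqrt (3 / T.card) := Real.sqrt_pos.2 (by positivity)
      have hs2 : Real.sqrt (3 / T.card) ^ 2 = 3 / T.card := Real.sq_sqrt (by positivity)
      have hden : 0 < 1 - θ ^ 2 := by nlinarith
      -- `M² ≤ (16/3) θ² k / (1 - θ²)²`
      have hM2 : M ^ 2 * (3 / T.card) ≤ (4 * θ / (1 - θ ^ 2)) ^ 2 := by
        rw [← hs2, ← mul_pow]
        apply pow_le_pow_left₀ (by positivity) hM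
      have hM3 : M ^ 2 ≤ (4 / 9) / (1 - θ ^ 2) ^ 2 * R := by
        rw [aux1 M T.card hkpos]
        calc M ^ 2 * (3 / T.card) * (T.card / 3)
            ≤ (4 * θ / (1 - θ ^ 2)) ^ 2 * (T.card / 3) :=
              mul_le_mul_of_nonneg_right hM2 (div_nonneg hkpos.le (by norm_num))
          _ = (4 / 9) / (1 - θ ^ 2) ^ 2 * (w * T.card) := by
              rw [hw]; exact aux2 θ T.card hden
          _ ≤ (4 / 9) / (1 - θ ^ 2) ^ 2 * R :=
              mul_le_mul_of_nonneg_left hk (div_nonneg (by norm_num) (sq_nonneg _))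
      have hd2 : (0.984 : ℝ) ≤ (1 - θ ^ 2) ^ 2 := by nlinarith
      have hM4 : M ^ 2 ≤ 0.452 * R := by
        refine hM3.trans ?_
        apply mul_le_mul_of_nonneg_right _ hR0
        rw [div_le_iff₀ (by positivity)]
        nlinarith
      have hθle : θ ≤ 0.0884 := by nlinarith
      have hVle : V ≤ 0.0813 := by
        refine hv0.trans ?_
        rw [div_le_iff₀ (by linarith)]
        nlinarith
      by_contra hcon
      push Not at hcon
      have hMR : R - 0.0813 ≤ M := by linarith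
      have hM5 : (R - 0.0813) ^ 2 ≤ M ^ 2 := pow_le_pow_left₀ (by linarith) hMR 2
      nlinarith
  -- the maximality
  have hmax : ∀ z, Miss A z → ∑ γ with pair z γ = 0 ∧ γ ∉ C T, ρ γ ≤ w := by
    intro z hz
    by_cases hzT : z ∈ T
    · have h1 : (Finset.univ.filter fun γ => pair z γ = 0 ∧ γ ∉ C T) = ∅ := by
        rw [Finset.filter_eq_empty_iff]
        rintro γ - ⟨h1, h2⟩
        apply h2
        simp only [C, Finset.mem_filter, Finset.mem_univ, true_and]
        exact ⟨z, hzT, h1⟩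
      rw [h1, Finset.sum_empty]; exact hw0
    · have h1 := hTmax (insert z T) (by
        rw [Finset.mem_powerset]
        intro y hy
        rcases Finset.mem_insert.1 hy with rfl | hy
        · simp [Dm, hz]
        · exact hTD hy)
      have h2 : C (insert z T) = C T ∪ (Finset.univ.filter fun γ => pair z γ = 0 ∧ γ ∉ C T) := by
        ext γ
        simp only [C, Finset.mem_filter, Finset.mem_univ, true_and, Finset.mem_insert,
          Finset.mem_union, exists_eq_or_imp]
        generalize (∃ a ∈ T, (pair a) γ = 0) = X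
        generalize ((pair z) γ = 0) = Y
        tauto
      have h3 : Disjoint (C T) (Finset.univ.filter fun γ => pair z γ = 0 ∧ γ ∉ C T) := by
        rw [Finset.disjoint_left]
        intro γ h4 h5
        exact (Finset.mem_filter.1 h5).2.2 h4
      simp only [h2, Finset.sum_union h3, Finset.card_insert_of_notMem hzT] at h1
      push_cast at h1
      linarith
  have hmassout : ∑ γ with γ ∉ C T, ρ γ = 1 - R := by
    have h1 := Finset.sum_filter_add_sum_filter_not Finset.univ (fun γ => γ ∈ C T) ρ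
    rw [hsum] at h1
    have h2 : (Finset.univ.filter fun γ => γ ∈ C T) = C T := by ext; simp
    rw [h2] at h1
    linarith
  have hR1 : 0 < 1 - R := by linarith
  refine ⟨fun γ => if γ ∉ C T then ρ γ / (1 - R) else 0, ?_, ?_, ?_⟩
  · intro γ
    show 0 ≤ (if γ ∉ C T then ρ γ / (1 - R) else 0)
    by_cases h : γ ∉ C T
    · rw [if_pos h]; exact div_nonneg (hρ γ) hR1.le
    · rw [if_neg h]
  · rw [← Finset.sum_filter, ← Finset.sum_div, hmassout, div_self hR1.ne']
  · intro z hz
    have h1 : ∑ γ with pair z γ = 0, (if γ ∉ C T then ρ γ / (1 - R) else 0) =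
        (∑ γ with pair z γ = 0 ∧ γ ∉ C T, ρ γ) / (1 - R) := by
      rw [← Finset.sum_filter, Finset.filter_filter, Finset.sum_div]
    rw [h1, div_le_iff₀ hR1]
    refine (hmax z hz).trans ?_
    rw [hw]
    nlinarith [sq_nonneg θ]

/-! ### The final statement -/

open CosetNearHalf in
lemma main_sets' {n : ℕ} (hn : 0 < n) (α : ℝ) (hα0 : 0 < α) (m : ℕ)
    (hm : 128 * (1 - 2 * α) ^ 2 * n < m)
    (A : Finset (F2n n)) (hA : DensityGE α A) :
    ∃ V : Submodule (ZMod 2) (F2n n), n ≤ Module.finrank (ZMod 2) V + m ∧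
      ∀ x ∈ V, ∃ a ∈ A, ∃ b ∈ A, a + b = x := by
  classical
  unfold DensityGE at hA
  have hnR : (0 : ℝ) < n := by exact_mod_cast hn
  have hcard : 0 < A.card := by
    have h1 : (0 : ℝ) < A.card := lt_of_lt_of_le (by positivity) hA
    exact_mod_cast h1
  by_cases hbig : (2 : ℝ) ^ n < 2 * A.card
  · refine ⟨⊤, by simp, fun x _ => sumset_eq_univ A hbig x⟩
  push Not at hbig
  by_cases hnm : n ≤ m
  · refine ⟨⊥, by omega, ?_⟩
    intro x hx
    rw [Submodule.mem_bot] at hx
    obtain ⟨a, ha⟩ := Finset.card_pos.1 hcard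
    exact ⟨a, ha, a, ha, by rw [hx, add_self']⟩
  push Not at hnm
  set θ : ℝ := 1 - 2 * A.card / 2 ^ n with hθ
  have hθ0 : 0 ≤ θ := by
    rw [hθ, sub_nonneg, div_le_one (by positivity)]; exact hbig
  have hθle : θ ≤ 1 - 2 * α := by
    rw [hθ]
    have : α ≤ A.card / 2 ^ n := by
      rw [le_div_iff₀ (by positivity)]; exact hA
    have h2 : 2 * (A.card : ℝ) / 2 ^ n = 2 * (A.card / 2 ^ n) := by ring
    rw [h2]; linarith
  have hθ2 : θ ^ 2 ≤ (1 - 2 * α) ^ 2 := pow_le_pow_left₀ hθ0 hθle 2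
  have hsmall : (1 - 2 * α) ^ 2 ≤ 1 / 128 := by
    have h1 : (m : ℝ) < n := by exact_mod_cast hnm
    have h2 : 128 * (1 - 2 * α) ^ 2 * n < 1 * n := by linarith
    have h3 := lt_of_mul_lt_mul_right h2 hnR.le
    linarith
  obtain ⟨π, hπ, hsum, hZ⟩ := exists_core A hcard hbig θ hθ (by linarith)
  set v : ℝ := 32 * θ ^ 2 with hv
  have hv0 : 0 ≤ v := by positivity
  have hvm : 4 * v * n < m := by
    refine lt_of_le_of_lt ?_ hm
    apply mul_le_mul_of_nonneg_right _ hnR.le
    rw [hv]; linarith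
  have hvq : v ≤ 1 / 4 := by rw [hv]; linarith
  have hmpos : 0 < m := by
    have h1 : 0 ≤ 4 * v * n := by positivity
    have h2 : (0 : ℝ) < m := by linarith
    exact_mod_cast h2
  let Z : Finset (Module.Dual (ZMod 2) (F2n n)) :=
    (Finset.univ.filter fun z : F2n n => ¬ ∃ a ∈ A, ∃ b ∈ A, a + b = z).image pair
  have hZ' : ∀ z ∈ Z, ∑ x with z x = 0, π x ≤ v := by
    intro z hz
    obtain ⟨y, hy, rfl⟩ := Finset.mem_image.1 hz
    have := hZ y (Finset.mem_filter.1 hy).2
    convert this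
  have hfin : (∃ S : Finset (F2n n), S.card ≤ m ∧ ∀ z ∈ Z, ∃ x ∈ S, z x ≠ 0) →
      ∃ V : Submodule (ZMod 2) (F2n n), n ≤ Module.finrank (ZMod 2) V + m ∧
      ∀ x ∈ V, ∃ a ∈ A, ∃ b ∈ A, a + b = x := by
    rintro ⟨S, hS, hS2⟩
    apply subspace_of_points A S m hS
    intro z hz
    exact hS2 (pair z) (Finset.mem_image_of_mem _ (by simpa using hz))
  have hcore0 : v ^ m * 2 ^ n < 1 → ∃ S : Finset (F2n n), S.card ≤ m ∧ ∀ z ∈ Z, ∃ x ∈ S, z x ≠ 0 := by
    intro hlt
    apply core0 π hπ hsum v hv0 Z hZ' m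
    refine lt_of_le_of_lt ?_ hlt
    apply mul_le_mul_of_nonneg_left _ (by positivity)
    have h1 : Z.card ≤ 2 ^ n := by
      refine Finset.card_image_le.trans ?_
      rw [← card_F2n n]
      exact Finset.card_le_univ _
    exact_mod_cast h1
  apply hfin
  rcases hv0.eq_or_lt with h0 | hpos
  · apply hcore0
    rw [← h0, zero_pow hmpos.ne', zero_mul]
    exact one_pos
  by_cases h8 : 1 / 8 < v
  · apply hcore0
    have h1 : (n : ℝ) < (2 * m : ℕ) := by push_cast; nlinarith
    have h2 : n < 2 * m := by exact_mod_cast h1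
    have h3 : v ^ m ≤ (1 / 4) ^ m := pow_le_pow_left₀ hv0 hvq m
    have h5 : (2 : ℝ) ^ n < 2 ^ (2 * m) := pow_lt_pow_right₀ (by norm_num) h2
    calc v ^ m * 2 ^ n ≤ (1 / 4) ^ m * 2 ^ n := by
          apply mul_le_mul_of_nonneg_right h3; positivity
      _ < (1 / 4) ^ m * 2 ^ (2 * m) := by
          apply mul_lt_mul_of_pos_left h5; positivity
      _ = 1 := by
          rw [pow_mul, ← mul_pow]; norm_num
  push Not at h8
  have hfr : Module.finrank (ZMod 2) (F2n n) = n := by simp
  have hl2 : 1 / 2 < Real.log 2 := by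
    have := Real.log_two_gt_d9
    linarith
  have hl8 : 3 * Real.log 2 ≤ -Real.log v := by
    have h1 : Real.log v ≤ Real.log (1 / 8) := Real.log_le_log hpos h8
    have h2 : Real.log (1 / 8 : ℝ) = -(3 * Real.log 2) := by
      rw [one_div, Real.log_inv]
      have : (8 : ℝ) = 2 ^ 3 := by norm_num
      rw [this, Real.log_pow]
      push_cast; ring
    linarith
  apply core π hπ hsum v 1 (-Real.log v) one_pos hv0 (by linarith) (by rw [hfr]; exact hn) Z hZ' m
  rw [hfr]
  apply numeric 1 3 v n m hn one_pos hpos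
  · norm_num; linarith
  · norm_num; linarith
  · linarith

/-- The sumset of a set of density at least `α ∈ (0, 1/2]` contains a linear subspace of
codimension at most `128 (1 - 2α)² n + 1`. -/
theorem result (α : ℝ) (n : ℕ) (hα0 : 0 < α) (hα : α ≤ 1 / 2) (hn : 1 ≤ n) :
    (codimCoset α n : ℝ) ≤ 128 * (1 - 2 * α) ^ 2 * n + 1 ∧
    ∀ A : Finset (F2n n), DensityGE α A →
      ∃ V : Submodule (ZMod 2) (F2n n),
        (n : ℝ) - Module.finrank (ZMod 2) V ≤ 128 * (1 - 2 * α) ^ 2 * n + 1 ∧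
        ∀ x ∈ V, ∃ a ∈ A, ∃ b ∈ A, a + b = x := by
  have h0 : 0 ≤ 128 * (1 - 2 * α) ^ 2 * n := by positivity
  set m : ℕ := ⌊128 * (1 - 2 * α) ^ 2 * n⌋₊ + 1 with hm
  have h1 : 128 * (1 - 2 * α) ^ 2 * n < (m : ℝ) := by
    rw [hm]; push_cast; exact Nat.lt_floor_add_one _
  have h2 : (m : ℝ) ≤ 128 * (1 - 2 * α) ^ 2 * n + 1 := by
    rw [hm]; push_cast
    have := Nat.floor_le h0
    linarith
  constructor
  · have h3 : codimCoset α n ≤ m :=
      CosetNearHalf.codim_le α m (by linarith) (fun A hA => main_sets' hn α hα0 m h1 A hA)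
    have h4 : (codimCoset α n : ℝ) ≤ ((m : ℤ) : ℝ) := by exact_mod_cast h3
    push_cast at h4
    linarith
  · intro A hA
    obtain ⟨V, hV, hV2⟩ := main_sets' hn α hα0 m h1 A hA
    refine ⟨V, ?_, hV2⟩
    have h3 : (n : ℝ) ≤ Module.finrank (ZMod 2) V + m := by exact_mod_cast hV
    linarith

end Pool.Agent.Results.MP_9bde79_co.CosetQuadratic
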